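import Mathlib

/-!
# Project QF (helper525): finite sets of polynomials over a finite field
-/

namespace Pool.Agent.H525.QF

open Polynomial

section base

variable (K : Type) [Field K] [Fintype K]

open Classical in
/-- The polynomials of degree smaller than `a`. -/
noncomputable def lt (a : ℕ) : Finset K[X] :=
  Finset.univ.image (fun c : Fin a → K => ∑ i, C (c i) * X ^ (i : ℕ))

open Classical in
/-- The monic polynomials of degree `a`. -/
noncomputable def mon (a : ℕ) : Finset K[X] := (lt K a).image (fun p => X ^ a + p)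

end base

open Classical in
/-- The monic divisors of `f`. -/
noncomputable def mdiv {K : Type} [Field K] [Fintype K] (f : K[X]) : Finset K[X] :=
  (Finset.range (f.natDegree + 1)).biUnion (fun k => (mon K k).filter (fun d => d ∣ f))

/-- The binary quartic form `x ^ 4 + t y ^ 4`. -/
noncomputable def F {K : Type} [Field K] (v : K[X] × K[X]) : K[X] := v.1 ^ 4 + X * v.2 ^ 4

section lemmas

variable {K : Type} [Field K] [Fintype K]

theorem coeff_sum_fin {a : ℕ} (c : Fin a → K) (j : ℕ) :
    (∑ i, C (c i) * X ^ (i : ℕ) : K[X]).coeff j = if h : j < a then c ⟨j, h⟩ else 0 := by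
  rw [finset_sum_coeff]
  simp only [coeff_C_mul, coeff_X_pow]
  split_ifs with h
  · rw [Finset.sum_eq_single (⟨j, h⟩ : Fin a)]
    · simp
    · intro b _ hb
      rw [if_neg, mul_zero]
      intro hh
      exact hb (Fin.ext hh.symm)
    · intro hh
      exact absurd (Finset.mem_univ _) hh
  · apply Finset.sum_eq_zero
    intro b _
    rw [if_neg, mul_zero]
    intro hh
    exact h (hh ▸ b.2)

theorem mem_lt {a : ℕ} {p : K[X]} : p ∈ lt K a ↔ p.degree < a := by
  classical
  unfold lt
  rw [Finset.mem_image]
  constructor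
  · rintro ⟨c, _, rfl⟩
    rw [degree_lt_iff_coeff_zero]
    intro m hm
    rw [coeff_sum_fin, dif_neg (by omega)]
  · intro h
    refine ⟨fun i => p.coeff i, Finset.mem_univ _, ?_⟩
    ext j
    rw [coeff_sum_fin]
    split_ifs with hj
    · rfl
    · rw [degree_lt_iff_coeff_zero] at h
      exact (h j (by omega)).symm

theorem card_lt (a : ℕ) : (lt K a).card = Fintype.card K ^ a := by
  classical
  unfold lt
  rw [Finset.card_image_of_injective]
  · rw [Finset.card_univ, Fintype.card_fun, Fintype.card_fin]
  · intro c c' h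
    funext i
    have := congrArg (fun p : K[X] => p.coeff i) h
    simp only [coeff_sum_fin] at this
    simpa using this

theorem mem_mon {a : ℕ} {p : K[X]} : p ∈ mon K a ↔ p.Monic ∧ p.natDegree = a := by
  classical
  unfold mon
  rw [Finset.mem_image]
  constructor
  · rintro ⟨r, hr, rfl⟩
    rw [mem_lt] at hr
    have h1 : (X ^ a + r).Monic := monic_X_pow_add hr
    refine ⟨h1, ?_⟩
    rw [natDegree_add_eq_left_of_degree_lt, natDegree_X_pow]
    rwa [degree_X_pow]
  · rintro ⟨hm, hd⟩
    refine ⟨p - X ^ a, ?_, by ring⟩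
    rw [mem_lt]
    have h := degree_sub_lt (p := p) (q := X ^ a) (by
      rw [degree_X_pow, degree_eq_natDegree hm.ne_zero, hd]) hm.ne_zero (by
      rw [hm.leadingCoeff, (monic_X_pow a).leadingCoeff])
    rwa [degree_eq_natDegree hm.ne_zero, hd] at h

theorem card_mon (a : ℕ) : (mon K a).card = Fintype.card K ^ a := by
  classical
  unfold mon
  rw [Finset.card_image_of_injective, card_lt]
  intro p p' h
  simpa using h

theorem mem_mdiv {f : K[X]} (hf : f ≠ 0) {d : K[X]} : d ∈ mdiv f ↔ d.Monic ∧ d ∣ f := by
  classical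
  unfold mdiv
  rw [Finset.mem_biUnion]
  constructor
  · rintro ⟨k, _, h⟩
    rw [Finset.mem_filter, mem_mon] at h
    exact ⟨h.1.1, h.2⟩
  · rintro ⟨h1, h2⟩
    refine ⟨d.natDegree, ?_, ?_⟩
    · rw [Finset.mem_range]
      have := natDegree_le_of_dvd h2 hf
      omega
    · rw [Finset.mem_filter, mem_mon]
      exact ⟨⟨h1, rfl⟩, h2⟩

end lemmas

end Pool.Agent.H525.QF
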