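import Mathlib
import Pool.Agent.H985.Chow.StmSgn
import Pool.Agent.H525.QF.Base

/-!
# Project QF (helper525): primes represented by the binary quartic form `x ^ 4 + t y ^ 4` over
`F_q[t]`, `q` even.  Statements of the tasks.

`lt K a` = polynomials of degree `< a` (finset), `mon K a` = monic polynomials of degree `a`,
`mdiv f` = monic divisors of `f ≠ 0`, `F v = v.1 ^ 4 + X * v.2 ^ 4` (lemmas `mem_lt`, `card_lt`,
`mem_mon`, `card_mon`, `mem_mdiv` in `Base.lean`), `mob` = Möbius function of `K[X]`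
(`Pool.Agent.H985.Chow.mob`).
-/

namespace Pool.Agent.H525.QF

open Polynomial
open Pool.Agent.H985.Chow (mob)
open scoped Classical

section counts

variable {K : Type} [Field K] [Fintype K]

/-- Pairs `(x, y)`, `y` monic of degree `m`, `deg x ≤ m`, such that `b ∣ F (x, y)`. -/
noncomputable def A (m : ℕ) (b : K[X]) : ℕ :=
  (((lt K (m + 1)) ×ˢ (mon K m)).filter (fun v => b ∣ F v)).card

/-- Pairs `(x, y)`, `x` monic of degree `m`, `deg y < m`, such that `b ∣ F (x, y)`. -/
noncomputable def A' (m : ℕ) (b : K[X]) : ℕ :=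
  (((mon K m) ×ˢ (lt K m)).filter (fun v => b ∣ F v)).card

/-- Pairs `(x, y)`, `deg x < a`, `deg y < c`, such that `b ∣ F (x, y)`. -/
noncomputable def B (a c : ℕ) (b : K[X]) : ℕ :=
  (((lt K a) ×ˢ (lt K c)).filter (fun v => b ∣ F v)).card

/-- Pairs `(x, y)`, `deg x < a`, `deg y < c`, such that `b ∣ x + τ y`. -/
noncomputable def L (a c : ℕ) (b τ : K[X]) : ℕ :=
  (((lt K a) ×ˢ (lt K c)).filter (fun v => b ∣ v.1 + τ * v.2)).card

end counts

/-- **PAR** (parity, Swan's theorem for this family).  For coprime `(x, y)` the polynomial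
`f = x ^ 4 + X y ^ 4` is squarefree (`f' = y ^ 4`, and `gcd (f, f') = gcd (x ^ 4, y ^ 4) = 1`) and its
Möbius value depends on the degree only.  Proof: use `Pool.Agent.H985.Chow.sgn : S_sgn` (file
`H985/Chow/Sgn.lean`) for `G = Xh ^ 4 + X * Yh ^ 4`, where `Xh, Yh` are lifts of `x, y` to the Witt
vectors `W(K)` with the same degrees (the monic one with a monic lift): it gives the roots `v i` in
`W(AC K)` with `frobLift (vdm v) = (-1) ^ N * mob f * vdm v`, `N = deg f`.  Now `vdm v ^ 2 =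
(-1) ^ (N (N - 1) / 2) * ∏ G'(v i)` (`H524/Disc.lean`: `prod_eval_derivative`, `prod_diff_eq`), the
sign is `+` for `N = 4 n + 1` and for `N = 4 n`, and `G' = Yh ^ 4 + 4 H`, `H = Xh ^ 3 Xh' +
X Yh ^ 3 Yh'`.  So modulo `8`: `∏ G'(v i) = Π ^ 4 (1 + 4 s)`, `Π = ∏ Yh (v i)` (a unit, fixed by
`frobLift`; for `n = 0` of the second kind everything is trivial), where `s` reduces to
`Σ h(r) / f'(r)` over the roots `r` of `f`, `h = x ^ 3 x' + X y ^ 3 y'`; by Euler's formula this is the
coefficient of `X ^ (N - 1)` in `h`, i.e. `n` modulo `2` (`H524/EvenC.lean` has `prod_add_four` and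
`sum_prod_eq_coeff`).  If `n` is even, `vdm v ^ 2 ≡ (Π ^ 2) ^ 2` modulo `8`.  If `n` is odd,
`1 + 4 ≡ (1 + 2 ω) ^ 2` modulo `8` for the Teichmüller lift `ω` of a primitive cube root of unity
in `AC K` (`ω ^ 2 + ω + 1 = 0`), and `frobLift (1 + 2 ω) = ± (1 + 2 ω)`, sign `+` iff `κ` is even.
Then `H524.sign_contradiction` (in `H524/Witt.lean`) determines the sign of `frobLift` on `vdm v`. -/
def S_par : Prop :=
  ∀ (K : Type) [Field K] [Fintype K] [CharP K 2] (κ : ℕ), Fintype.card K = 2 ^ κ →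
    ∀ (n : ℕ) (v : K[X] × K[X]), IsCoprime v.1 v.2 →
      (v.1 ∈ lt K (n + 1) → v.2 ∈ mon K n →
        Squarefree (F v) ∧ mob (F v) = -(-1) ^ (κ * n)) ∧
      (v.1 ∈ mon K n → v.2 ∈ lt K n → Squarefree (F v) ∧ mob (F v) = (-1) ^ (κ * n))

/-- **ROOT**.  `K[X] ⧸ (b)` is a finite reduced ring of characteristic two (`b` squarefree), so the
Frobenius map is injective, hence bijective, and `X` is a fourth power `τ ^ 4` modulo `b`.  Then
`F v ≡ (v.1 + τ v.2) ^ 4` modulo `b`, and a squarefree `b` divides `z ^ 4` iff it divides `z`. -/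
def S_root : Prop :=
  ∀ (K : Type) [Field K] [Fintype K] [CharP K 2] (b : K[X]), b.Monic → Squarefree b →
    ∃ τ : K[X], ∀ v : K[X] × K[X], b ∣ F v ↔ b ∣ v.1 + τ * v.2

/-- **RR** (the Riemann–Roch theorem for rank two lattices, elementary).  For `a, c ≤ k = deg b`:
`#{(x, y) : deg x < a, deg y < c, b ∣ x + τ y} * q ^ k = q ^ (a + c) * #{(x, y) : deg x < k - c,
deg y < k - a, b ∣ x + τ y}`.
Proof: for polynomials `u, w` let `β(u, w)` be the coefficient of `X ^ (k - 1)` in `u w mod b`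
(`%ₘ`), a bilinear form over `K`.  For `deg u < k`: `deg u < a` iff `β (u, w) = 0` for all `w` with
`deg w < k - a` (if `deg u < a` then `deg (u w) < k - 1 + 1`, more precisely `≤ k - 2`; if
`e = deg u ≥ a` take `w = X ^ (k - 1 - e)`).  Consider the bilinear form `T(y, w) = β(τ y, w)`
on `lt c × lt (k - a)`.  Its left kernel is `{y : deg y < c, (τ y mod b) ∈ lt a}`, which is in
bijection with the first set (`x = -(τ y mod b)`), and its right kernel is `{w : deg w < k - a,
(τ w mod b) ∈ lt (k - c)}`, in bijection with the second set.  For a bilinear form on finite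
dimensional spaces `V × W` one has `dim V - dim ker_left = dim W - dim ker_right` (rank of the
transpose; or count the pairs by a double sum with additive characters, or count the pairs `(y, w)`
with `T (y, w) = 0` in two ways: for fixed `y` there are `q ^ dim W` or `q ^ (dim W - 1)` of them). -/
def S_rr : Prop :=
  ∀ (K : Type) [Field K] [Fintype K] (b τ : K[X]) (k a c : ℕ), b.Monic → b.natDegree = k →
    a ≤ k → c ≤ k →
    L a c b τ * Fintype.card K ^ k = Fintype.card K ^ (a + c) * L (k - c) (k - a) b τ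

/-- **EX**.  For fixed `y` the `x` with `b ∣ x + τ y` form one residue class modulo `b`; it has
`q ^ (a - k)` elements of degree `< a` if `k ≤ a`, and `q ^ (m - k)` monic elements of degree `m` if
`k ≤ m` (`k = deg b`). -/
def S_ex : Prop :=
  ∀ (K : Type) [Field K] [Fintype K] (b τ : K[X]) (k a : ℕ) (T : Finset K[X]), b.Monic →
    b.natDegree = k → k ≤ a →
    (((lt K a) ×ˢ T).filter (fun v => b ∣ v.1 + τ * v.2)).card * Fintype.card K ^ k =
      Fintype.card K ^ a * T.card ∧
    (((mon K a) ×ˢ T).filter (fun v => b ∣ v.1 + τ * v.2)).card * Fintype.card K ^ k =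
      Fintype.card K ^ a * T.card

/-- **SC** (scaling).  Nonzero scalars: if `y ≠ 0` has leading coefficient `c` then `(x / c, y / c)`
has a monic second component, and `F (x / c, y / c) = F (x, y) / c ^ 4`. -/
def S_sc : Prop :=
  ∀ (K : Type) [Field K] [Fintype K] (m : ℕ) (b : K[X]),
    B (m + 1) (m + 1) b = B (m + 1) m b + (Fintype.card K - 1) * A m b ∧
    B (m + 1) m b = B m m b + (Fintype.card K - 1) * A' m b

/-- **FLIP**.  The map `d ↦ f / d` on the monic divisors of a monic squarefree `f`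
(`mob (f / d) = mob f * mob d`). -/
def S_flip : Prop :=
  ∀ (K : Type) [Field K] [Fintype K] (f : K[X]), f.Monic → Squarefree f → ∀ k ≤ f.natDegree,
    ((mdiv f).filter (fun d => d.natDegree = k)).card =
      ((mdiv f).filter (fun d => d.natDegree = f.natDegree - k)).card

/-- **LAM**.  If `mob f = -1`, `deg f = N`, then `Σ_{d ∣ f, deg d < N / 2} mob d (N - 2 deg d)` is `N`
for irreducible `f` and `0` otherwise: pair `d` and `f / d`; the sum is `Σ_{d ∣ f} mob d (N - deg d)`
(half of the sum of `mob d (N - 2 deg d)` over all divisors), and for squarefree `f ≠ 1`,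
`Σ mob d = 0` and `Σ mob d * deg d` is `- deg f` if `f` is irreducible and `0` if `f` has at least
two prime factors. -/
def S_lam : Prop :=
  ∀ (K : Type) [Field K] [Fintype K] (f : K[X]) (N : ℕ), f.Monic → Squarefree f →
    f.natDegree = N → mob f = -1 →
    ∑ d ∈ (mdiv f).filter (fun d => 2 * d.natDegree < N), mob d * ((N : ℤ) - 2 * d.natDegree) =
      if Irreducible f then (N : ℤ) else 0

/-- **DIV**.  Divisor sums of the Möbius function. -/
def S_div : Prop :=
  ∀ (K : Type) [Field K] [Fintype K] (g : K[X]), g.Monic → Squarefree g →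
    ∑ a ∈ mdiv g, mob a = (if g = 1 then 1 else 0) ∧
    ∑ a ∈ mdiv g, mob a * (a.natDegree : ℤ) = (if Irreducible g then -(g.natDegree : ℤ) else 0)

/-- **MS** (sums of the Möbius function over all monic polynomials of degree `k`; the zeta function
of `K[X]`). -/
def S_ms : Prop :=
  ∀ (K : Type) [Field K] [Fintype K] (k : ℕ),
    ∑ b ∈ mon K k, mob b = if k = 0 then 1 else if k = 1 then -(Fintype.card K : ℤ) else 0

/-- **HP**.  For a monic irreducible `π`: with `M(k) = Σ_{b monic, deg b = k, π ∤ b} mob b` one has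
`M(k) - M(k - deg π) = Σ_{deg b = k} mob b` (write `b = π b'`), so by MS and induction
`H(Y) = Σ_{k ≤ Y} q ^ (Y - k) M(k)` satisfies `H(Y) = H(Y - deg π)` for `Y ≥ 1` (with `H(0) = 1` and
`H = 0` at negative arguments), hence `H(Y) ∈ {0, 1}`. -/
def S_hp : Prop :=
  ∀ (K : Type) [Field K] [Fintype K] (π : K[X]), π.Monic → Irreducible π → ∀ Y : ℕ,
    (∑ k ∈ Finset.range (Y + 1), (Fintype.card K : ℤ) ^ (Y - k) *
      ∑ b ∈ (mon K k).filter (fun b => IsCoprime b π), mob b = 0) ∨
    (∑ k ∈ Finset.range (Y + 1), (Fintype.card K : ℤ) ^ (Y - k) *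
      ∑ b ∈ (mon K k).filter (fun b => IsCoprime b π), mob b = 1)

/-- **DEC** (decomposition, first kind).  `1_{gcd (x, y) = 1} = Σ_{g monic, g ∣ x, g ∣ y} mob g`; write
`v = g v'` (`v' ∈ lt (n - j + 1) × mon (n - j)`, `j = deg g`), and for squarefree `g` and `d`:
`d ∣ F (g v') = g ^ 4 F v'` iff `d = a b`, `a = gcd (d, g)`, `b` prime to `g`, `b ∣ F v'`, and
`mob d = mob a * mob b`.  (`F v' ≠ 0`; `deg b ≤ 4 n + 1`.) -/
def S_dec : Prop :=
  ∀ (K : Type) [Field K] [Fintype K] (n : ℕ) (w : ℕ → ℤ),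
    ∑ v ∈ ((lt K (n + 1)) ×ˢ (mon K n)).filter (fun v => IsCoprime v.1 v.2),
      ∑ d ∈ mdiv (F v), mob d * w d.natDegree =
    ∑ j ∈ Finset.range (n + 1), ∑ g ∈ mon K j, mob g * ∑ a ∈ mdiv g, mob a *
      ∑ k ∈ Finset.range (4 * n + 2), w (a.natDegree + k) *
        ∑ b ∈ (mon K k).filter (fun b => IsCoprime b g), mob b * (A (n - j) b : ℤ)

/-- **DEC'** (decomposition, second kind). -/
def S_dec' : Prop :=
  ∀ (K : Type) [Field K] [Fintype K] (n : ℕ) (w : ℕ → ℤ),
    ∑ v ∈ ((mon K n) ×ˢ (lt K n)).filter (fun v => IsCoprime v.1 v.2),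
      ∑ d ∈ mdiv (F v), mob d * w d.natDegree =
    ∑ j ∈ Finset.range (n + 1), ∑ g ∈ mon K j, mob g * ∑ a ∈ mdiv g, mob a *
      ∑ k ∈ Finset.range (4 * n + 2), w (a.natDegree + k) *
        ∑ b ∈ (mon K k).filter (fun b => IsCoprime b g), mob b * (A' (n - j) b : ℤ)

/-- **DC** (divisor counts: from coprime pairs to all pairs).  If the number of pairs `(v, d)`,
`v` coprime in the box of size `i`, `d ∣ F v` monic of degree `l`, is at most `D q ^ (2 i + 1)`
(resp. `D q ^ (2 i)`) for all `i ≤ m` and all `l`, then the number of pairs `(v, b)`, `v` in the box of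
size `m`, `b ∣ F v` monic squarefree of degree `k`, is at most `D (q / (q - 1)) ^ 2 q ^ (2 m + 1)`
(resp. `q ^ (2 m)`).  Proof: `v = h v'`, `h` the monic gcd, `v'` coprime in the box of size `m - deg h`,
`b = b₁ b₂`, `b₁ = gcd (b, h)` (monic), `b₂ ∣ F v'` (as `b` is squarefree, `b₂` is prime to `h`).  The
number of pairs `(h, b₁)`, `h` monic of degree `j`, `b₁ ∣ h`, is `(j + 1) q ^ j`, and
`Σ_j (j + 1) q ^ (-j) ≤ (q / (q - 1)) ^ 2`. -/
def S_dc : Prop :=
  ∀ (K : Type) [Field K] [Fintype K] (D : ℝ) (m k : ℕ), 0 ≤ D →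
    ((∀ i ≤ m, ∀ l : ℕ, ((∑ v ∈ ((lt K (i + 1)) ×ˢ (mon K i)).filter
        (fun v => IsCoprime v.1 v.2), ((mdiv (F v)).filter (fun d => d.natDegree = l)).card : ℕ) : ℝ)
        ≤ D * (Fintype.card K : ℝ) ^ (2 * i + 1)) →
      ((∑ b ∈ (mon K k).filter (fun b => Squarefree b), A m b : ℕ) : ℝ) ≤
        D * ((Fintype.card K : ℝ) / ((Fintype.card K : ℝ) - 1)) ^ 2 *
          (Fintype.card K : ℝ) ^ (2 * m + 1)) ∧
    ((∀ i ≤ m, ∀ l : ℕ, ((∑ v ∈ ((mon K i) ×ˢ (lt K i)).filter
        (fun v => IsCoprime v.1 v.2), ((mdiv (F v)).filter (fun d => d.natDegree = l)).card : ℕ) : ℝ)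
        ≤ D * (Fintype.card K : ℝ) ^ (2 * i)) →
      ((∑ b ∈ (mon K k).filter (fun b => Squarefree b), A' m b : ℕ) : ℝ) ≤
        D * ((Fintype.card K : ℝ) / ((Fintype.card K : ℝ) - 1)) ^ 2 *
          (Fintype.card K : ℝ) ^ (2 * m))

end Pool.Agent.H525.QF
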