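import Mathlib
import Pool.Agent.H525.QF.Stm

/-!
# Project QF (helper525): the recursion for the counts
-/

namespace Pool.Agent.H525.QF

open Polynomial Finset
open Pool.Agent.H985.Chow (mob)
open scoped Classical

section exact

variable {K : Type} [Field K] [Fintype K] [CharP K 2]

theorem rrB (hroot : S_root) (hrr : S_rr) {b : K[X]} (hb : b.Monic) (hs : Squarefree b) {k a c : ℕ}
    (hk : b.natDegree = k) (ha : a ≤ k) (hc : c ≤ k) :
    B a c b * Fintype.card K ^ k = Fintype.card K ^ (a + c) * B (k - c) (k - a) b := by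
  obtain ⟨τ, hτ⟩ := hroot K b hb hs
  have h : ∀ a c : ℕ, B a c b = L a c b τ := by
    intro a c
    unfold B L
    congr 1
    apply Finset.filter_congr
    intro v _
    exact hτ v
  rw [h, h]
  exact hrr K b τ k a c hb hk ha hc

theorem A_ex (hroot : S_root) (hex : S_ex) {b : K[X]} (hb : b.Monic) (hs : Squarefree b) {k m : ℕ}
    (hk : b.natDegree = k) (hm : k ≤ m + 1) :
    A m b * Fintype.card K ^ k = Fintype.card K ^ (2 * m + 1) := by
  obtain ⟨τ, hτ⟩ := hroot K b hb hs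
  have h : A m b = (((lt K (m + 1)) ×ˢ (mon K m)).filter (fun v => b ∣ v.1 + τ * v.2)).card := by
    unfold A
    congr 1
    apply Finset.filter_congr
    intro v _
    exact hτ v
  rw [h, (hex K b τ k (m + 1) (mon K m) hb hk hm).1, card_mon, ← pow_add]
  congr 1
  ring

theorem A'_ex (hroot : S_root) (hex : S_ex) {b : K[X]} (hb : b.Monic) (hs : Squarefree b) {k m : ℕ}
    (hk : b.natDegree = k) (hm : k ≤ m) :
    A' m b * Fintype.card K ^ k = Fintype.card K ^ (2 * m) := by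
  obtain ⟨τ, hτ⟩ := hroot K b hb hs
  have h : A' m b = (((mon K m) ×ˢ (lt K m)).filter (fun v => b ∣ v.1 + τ * v.2)).card := by
    unfold A'
    congr 1
    apply Finset.filter_congr
    intro v _
    exact hτ v
  rw [h, (hex K b τ k m (lt K m) hb hk hm).2, card_lt, ← pow_add]
  congr 1
  ring

theorem q_two : 2 ≤ Fintype.card K := Fintype.one_lt_card

theorem B_zero (b : K[X]) : B 0 0 b = 1 := by
  unfold B
  rw [Finset.card_eq_one]
  refine ⟨(0, 0), ?_⟩
  ext v
  rw [Finset.mem_filter, Finset.mem_product, mem_lt, mem_lt, Finset.mem_singleton]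
  constructor
  · rintro ⟨⟨h1, h2⟩, _⟩
    have e1 : v.1 = 0 := degree_eq_bot.1 (Nat.WithBot.lt_zero_iff.1 (by simpa using h1))
    have e2 : v.2 = 0 := degree_eq_bot.1 (Nat.WithBot.lt_zero_iff.1 (by simpa using h2))
    exact Prod.ext e1 e2
  · rintro rfl
    refine ⟨⟨by simp, by simp⟩, ?_⟩
    unfold F
    simp

/-- The real number `q`. -/
noncomputable def qr (K : Type) [Fintype K] : ℝ := (Fintype.card K : ℝ)

theorem qr_two : (2 : ℝ) ≤ qr K := by
  unfold qr
  exact_mod_cast (q_two (K := K))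

theorem B_succ (hsc : S_sc) (m : ℕ) (b : K[X]) :
    ((B (m + 1) (m + 1) b : ℕ) : ℝ) = B (m + 1) m b + (qr K - 1) * A m b ∧
    ((B (m + 1) m b : ℕ) : ℝ) = B m m b + (qr K - 1) * A' m b := by
  obtain ⟨h1, h2⟩ := hsc K m b
  have hq : ((Fintype.card K - 1 : ℕ) : ℝ) = qr K - 1 := by
    have := q_two (K := K)
    rw [Nat.cast_sub (by omega), Nat.cast_one]
    rfl
  constructor
  · rw [h1]
    push_cast
    rw [hq]
  · rw [h2]
    push_cast
    rw [hq]

theorem B_sum (hsc : S_sc) (μ : ℕ) (b : K[X]) :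
    ((B μ μ b : ℕ) : ℝ) = 1 + (qr K - 1) * ∑ i ∈ range μ, ((A i b : ℝ) + A' i b) := by
  induction μ with
  | zero => simp [B_zero]
  | succ μ ih =>
    rw [(B_succ hsc μ b).1, (B_succ hsc μ b).2, ih, Finset.sum_range_succ]
    ring

theorem A_rr (hroot : S_root) (hrr : S_rr) (hsc : S_sc) {b : K[X]} (hb : b.Monic)
    (hs : Squarefree b) {m μ : ℕ} (hk : b.natDegree = m + 1 + μ) :
    (A m b : ℝ) * qr K ^ (m + 1 + μ) = qr K ^ (2 * m + 1) *
      (1 + (qr K - 1) * ∑ i ∈ range μ, ((A i b : ℝ) + A' i b) - A' μ b) := by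
  have h1 := rrB hroot hrr hb hs (k := m + 1 + μ) (a := m + 1) (c := m + 1) hk (by omega) (by omega)
  have h2 := rrB hroot hrr hb hs (k := m + 1 + μ) (a := m + 1) (c := m) hk (by omega) (by omega)
  rw [show m + 1 + μ - (m + 1) = μ by omega] at h1 h2
  rw [show m + 1 + μ - m = μ + 1 by omega] at h2
  have h1' : ((B (m + 1) (m + 1) b : ℕ) : ℝ) * qr K ^ (m + 1 + μ) =
      qr K ^ (m + 1 + (m + 1)) * (B μ μ b : ℝ) := by
    unfold qr; exact_mod_cast h1
  have h2' : ((B (m + 1) m b : ℕ) : ℝ) * qr K ^ (m + 1 + μ) =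
      qr K ^ (m + 1 + m) * (B (μ + 1) μ b : ℝ) := by
    unfold qr; exact_mod_cast h2
  have h3 := (B_succ hsc m b).1
  have h4 := (B_succ hsc μ b).2
  rw [← B_sum hsc μ b]
  have hq : qr K - 1 ≠ 0 := by have := qr_two (K := K); linarith
  apply mul_left_cancel₀ hq
  rw [h3] at h1'
  rw [h4] at h2'
  have e : qr K ^ (m + 1 + (m + 1)) = qr K * qr K ^ (2 * m + 1) := by ring
  have e2 : qr K ^ (m + 1 + m) = qr K ^ (2 * m + 1) := by ring
  rw [e] at h1'
  rw [e2] at h2'
  linear_combination h1' - h2'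

theorem A'_rr (hroot : S_root) (hrr : S_rr) (hsc : S_sc) {b : K[X]} (hb : b.Monic)
    (hs : Squarefree b) {m μ : ℕ} (hk : b.natDegree = m + 1 + μ) :
    (A' m b : ℝ) * qr K ^ (m + 1 + μ) = qr K ^ (2 * m) *
      (1 + (qr K - 1) * ∑ i ∈ range μ, ((A i b : ℝ) + A' i b) + (qr K - 1) * A' μ b - A μ b) := by
  have h1 := rrB hroot hrr hb hs (k := m + 1 + μ) (a := m) (c := m) hk (by omega) (by omega)
  have h2 := rrB hroot hrr hb hs (k := m + 1 + μ) (a := m + 1) (c := m) hk (by omega) (by omega)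
  rw [show m + 1 + μ - (m + 1) = μ by omega] at h2
  rw [show m + 1 + μ - m = μ + 1 by omega] at h1 h2
  have h1' : ((B m m b : ℕ) : ℝ) * qr K ^ (m + 1 + μ) =
      qr K ^ (m + m) * (B (μ + 1) (μ + 1) b : ℝ) := by
    unfold qr; exact_mod_cast h1
  have h2' : ((B (m + 1) m b : ℕ) : ℝ) * qr K ^ (m + 1 + μ) =
      qr K ^ (m + 1 + m) * (B (μ + 1) μ b : ℝ) := by
    unfold qr; exact_mod_cast h2
  have h3 := (B_succ hsc m b).2
  have h4 := (B_succ hsc μ b).2
  have h5 := (B_succ hsc μ b).1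
  rw [← B_sum hsc μ b]
  have hq : qr K - 1 ≠ 0 := by have := qr_two (K := K); linarith
  apply mul_left_cancel₀ hq
  rw [h3] at h2'
  rw [h5] at h1'
  rw [h4] at h1' h2'
  have e : qr K ^ (m + m) = qr K ^ (2 * m) := by ring
  have e2 : qr K ^ (m + 1 + m) = qr K * qr K ^ (2 * m) := by ring
  rw [e] at h1'
  rw [e2] at h2'
  linear_combination h2' - h1'

/-- Weighted sum of the counts over the squarefree monic polynomials of degree `k`. -/
noncomputable def T (m k : ℕ) (w : K[X] → ℝ) : ℝ :=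
  ∑ b ∈ (mon K k).filter (fun b => Squarefree b), w b * (A m b : ℝ)

/-- Weighted sum of the counts of the second kind. -/
noncomputable def T' (m k : ℕ) (w : K[X] → ℝ) : ℝ :=
  ∑ b ∈ (mon K k).filter (fun b => Squarefree b), w b * (A' m b : ℝ)

/-- Sum of the weights. -/
noncomputable def W (k : ℕ) (w : K[X] → ℝ) : ℝ :=
  ∑ b ∈ (mon K k).filter (fun b => Squarefree b), w b

theorem T_rr (hroot : S_root) (hrr : S_rr) (hsc : S_sc) (m μ : ℕ) (w : K[X] → ℝ) :
    T m (m + 1 + μ) w * qr K ^ (m + 1 + μ) = qr K ^ (2 * m + 1) *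
      (W (m + 1 + μ) w + (qr K - 1) * ∑ i ∈ range μ, (T i (m + 1 + μ) w + T' i (m + 1 + μ) w) -
        T' μ (m + 1 + μ) w) := by
  have key : ∀ b ∈ (mon K (m + 1 + μ)).filter (fun b => Squarefree b),
      w b * (A m b : ℝ) * qr K ^ (m + 1 + μ) = qr K ^ (2 * m + 1) *
        (w b + (qr K - 1) * ∑ i ∈ range μ, (w b * (A i b : ℝ) + w b * (A' i b : ℝ)) -
          w b * (A' μ b : ℝ)) := by
    intro b hb
    rw [Finset.mem_filter, mem_mon] at hb
    have h := A_rr hroot hrr hsc hb.1.1 hb.2 hb.1.2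
    have e : ∑ i ∈ range μ, (w b * (A i b : ℝ) + w b * (A' i b : ℝ)) =
        w b * ∑ i ∈ range μ, ((A i b : ℝ) + A' i b) := by
      rw [Finset.mul_sum]
      apply Finset.sum_congr rfl
      intro i _
      ring
    rw [e]
    linear_combination (w b) * h
  unfold T T' W
  rw [Finset.sum_mul, Finset.sum_congr rfl key, ← Finset.mul_sum, Finset.sum_sub_distrib,
    Finset.sum_add_distrib, ← Finset.mul_sum, Finset.sum_comm]
  congr 4
  apply Finset.sum_congr rfl
  intro i _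
  rw [Finset.sum_add_distrib]

theorem T'_rr (hroot : S_root) (hrr : S_rr) (hsc : S_sc) (m μ : ℕ) (w : K[X] → ℝ) :
    T' m (m + 1 + μ) w * qr K ^ (m + 1 + μ) = qr K ^ (2 * m) *
      (W (m + 1 + μ) w + (qr K - 1) * ∑ i ∈ range μ, (T i (m + 1 + μ) w + T' i (m + 1 + μ) w) +
        (qr K - 1) * T' μ (m + 1 + μ) w - T μ (m + 1 + μ) w) := by
  have key : ∀ b ∈ (mon K (m + 1 + μ)).filter (fun b => Squarefree b),
      w b * (A' m b : ℝ) * qr K ^ (m + 1 + μ) = qr K ^ (2 * m) *
        (w b + (qr K - 1) * ∑ i ∈ range μ, (w b * (A i b : ℝ) + w b * (A' i b : ℝ)) +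
          (qr K - 1) * (w b * (A' μ b : ℝ)) - w b * (A μ b : ℝ)) := by
    intro b hb
    rw [Finset.mem_filter, mem_mon] at hb
    have h := A'_rr hroot hrr hsc hb.1.1 hb.2 hb.1.2
    have e : ∑ i ∈ range μ, (w b * (A i b : ℝ) + w b * (A' i b : ℝ)) =
        w b * ∑ i ∈ range μ, ((A i b : ℝ) + A' i b) := by
      rw [Finset.mul_sum]
      apply Finset.sum_congr rfl
      intro i _
      ring
    rw [e]
    linear_combination (w b) * h
  unfold T T' W
  rw [Finset.sum_mul, Finset.sum_congr rfl key, ← Finset.mul_sum, Finset.sum_sub_distrib,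
    Finset.sum_add_distrib, Finset.sum_add_distrib, ← Finset.mul_sum, ← Finset.mul_sum,
    Finset.sum_comm]
  congr 5
  apply Finset.sum_congr rfl
  intro i _
  rw [Finset.sum_add_distrib]

theorem T_ex (hroot : S_root) (hex : S_ex) {m k : ℕ} (hm : k ≤ m + 1) (w : K[X] → ℝ) :
    T m k w * qr K ^ k = qr K ^ (2 * m + 1) * W k w := by
  unfold T W
  rw [Finset.sum_mul, Finset.mul_sum]
  apply Finset.sum_congr rfl
  intro b hb
  rw [Finset.mem_filter, mem_mon] at hb
  have h := A_ex hroot hex hb.1.1 hb.2 hb.1.2 hm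
  have h' : (A m b : ℝ) * qr K ^ k = qr K ^ (2 * m + 1) := by
    unfold qr; exact_mod_cast h
  linear_combination (w b) * h'

theorem T'_ex (hroot : S_root) (hex : S_ex) {m k : ℕ} (hm : k ≤ m) (w : K[X] → ℝ) :
    T' m k w * qr K ^ k = qr K ^ (2 * m) * W k w := by
  unfold T' W
  rw [Finset.sum_mul, Finset.mul_sum]
  apply Finset.sum_congr rfl
  intro b hb
  rw [Finset.mem_filter, mem_mon] at hb
  have h := A'_ex hroot hex hb.1.1 hb.2 hb.1.2 hm
  have h' : (A' m b : ℝ) * qr K ^ k = qr K ^ (2 * m) := by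
    unfold qr; exact_mod_cast h
  linear_combination (w b) * h'

end exact

end Pool.Agent.H525.QF
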