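import Mathlib
import Pool.Agent.H525.QF.Rec

/-!
# Project QF (helper525): the average number of divisors
-/

namespace Pool.Agent.H525.QF

open Polynomial Finset
open Pool.Agent.H985.Chow (mob)
open scoped Classical

section pc

variable {K : Type} [Field K] [Fintype K] [CharP K 2]

/-- The number of pairs (coprime pair, divisor of degree `l`). -/
noncomputable def Ds (K : Type) [Field K] [Fintype K] (i l : ℕ) : ℕ :=
  ∑ v ∈ ((lt K (i + 1)) ×ˢ (mon K i)).filter (fun v => IsCoprime v.1 v.2),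
    ((mdiv (F v)).filter (fun d => d.natDegree = l)).card

/-- The same for the second kind. -/
noncomputable def Ds' (K : Type) [Field K] [Fintype K] (i l : ℕ) : ℕ :=
  ∑ v ∈ ((mon K i) ×ˢ (lt K i)).filter (fun v => IsCoprime v.1 v.2),
    ((mdiv (F v)).filter (fun d => d.natDegree = l)).card

theorem natDegree_F {n : ℕ} {v : K[X] × K[X]} (h1 : v.1 ∈ lt K (n + 1)) (h2 : v.2 ∈ mon K n) :
    (F v).Monic ∧ (F v).natDegree = 4 * n + 1 := by
  rw [mem_lt] at h1
  rw [mem_mon] at h2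
  obtain ⟨hm, hd⟩ := h2
  have hX : (X * v.2 ^ 4).Monic := monic_X.mul (hm.pow 4)
  have hXd : (X * v.2 ^ 4).natDegree = 4 * n + 1 := by
    rw [monic_X.natDegree_mul (hm.pow 4), natDegree_X, hm.natDegree_pow, hd]
    ring
  have hlt : (v.1 ^ 4).degree < (X * v.2 ^ 4).degree := by
    rw [degree_eq_natDegree hX.ne_zero, hXd]
    by_cases h0 : v.1 = 0
    · rw [h0]; simp
      exact WithBot.bot_lt_coe _
    · rw [degree_pow, degree_eq_natDegree h0]
      rw [degree_eq_natDegree h0] at h1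
      have h1' : v.1.natDegree < n + 1 := by exact_mod_cast h1
      have : 4 • (v.1.natDegree : WithBot ℕ) = ((4 * v.1.natDegree : ℕ) : WithBot ℕ) := by
        push_cast; simp
      rw [this]
      exact_mod_cast (by omega : 4 * v.1.natDegree < 4 * n + 1)
  unfold F
  constructor
  · rw [add_comm]
    exact hX.add_of_left hlt
  · rw [add_comm, natDegree_add_eq_left_of_degree_lt hlt, hXd]

theorem natDegree_F' {n : ℕ} {v : K[X] × K[X]} (h1 : v.1 ∈ mon K n) (h2 : v.2 ∈ lt K n) :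
    (F v).Monic ∧ (F v).natDegree = 4 * n := by
  rw [mem_lt] at h2
  rw [mem_mon] at h1
  obtain ⟨hm, hd⟩ := h1
  have hX : (v.1 ^ 4).Monic := hm.pow 4
  have hXd : (v.1 ^ 4).natDegree = 4 * n := by
    rw [hm.natDegree_pow, hd]
  have hlt : (X * v.2 ^ 4).degree < (v.1 ^ 4).degree := by
    rw [degree_eq_natDegree hX.ne_zero, hXd]
    by_cases h0 : v.2 = 0
    · rw [h0]; simp
      exact WithBot.bot_lt_coe _
    · rw [degree_mul, degree_X, degree_pow, degree_eq_natDegree h0]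
      rw [degree_eq_natDegree h0] at h2
      have h1' : v.2.natDegree < n := by exact_mod_cast h2
      have : 1 + 4 • (v.2.natDegree : WithBot ℕ) = ((1 + 4 * v.2.natDegree : ℕ) : WithBot ℕ) := by
        push_cast; simp
      rw [this]
      exact_mod_cast (by omega : 1 + 4 * v.2.natDegree < 4 * n)
  unfold F
  constructor
  · exact hX.add_of_left hlt
  · rw [natDegree_add_eq_left_of_degree_lt hlt, hXd]

/-- Double counting. -/
theorem Ds_le_T (hpar : S_par) (κ : ℕ) (hκ : Fintype.card K = 2 ^ κ) (i l : ℕ) :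
    (Ds K i l : ℝ) ≤ T (K := K) i l (fun _ => 1) := by
  unfold Ds T
  have e : ∑ b ∈ (mon K l).filter (fun b => Squarefree b), (1 : ℝ) * (A i b : ℝ) =
      ((∑ b ∈ (mon K l).filter (fun b => Squarefree b), A i b : ℕ) : ℝ) := by
    push_cast
    apply Finset.sum_congr rfl
    intro b _
    rw [one_mul]
  rw [e]
  norm_cast
  have h1 : ∀ v ∈ ((lt K (i + 1)) ×ˢ (mon K i)).filter (fun v => IsCoprime v.1 v.2),
      ((mdiv (F v)).filter (fun d => d.natDegree = l)).card =
      (((mon K l).filter (fun b => Squarefree b)).filter (fun b => b ∣ F v)).card := by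
    intro v hv
    rw [Finset.mem_filter, Finset.mem_product] at hv
    obtain ⟨⟨hv1, hv2⟩, hc⟩ := hv
    have hsq := ((hpar K κ hκ i v hc).1 hv1 hv2).1
    have h0 := (natDegree_F hv1 hv2).1.ne_zero
    congr 1
    ext d
    rw [Finset.mem_filter, mem_mdiv h0, Finset.mem_filter, Finset.mem_filter, mem_mon]
    constructor
    · rintro ⟨⟨a, b⟩, c⟩
      exact ⟨⟨⟨a, c⟩, hsq.squarefree_of_dvd b⟩, b⟩
    · rintro ⟨⟨⟨a, c⟩, _⟩, b⟩
      exact ⟨⟨a, b⟩, c⟩
  rw [Finset.sum_congr rfl h1]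
  have h2 : ∑ v ∈ ((lt K (i + 1)) ×ˢ (mon K i)).filter (fun v => IsCoprime v.1 v.2),
      (((mon K l).filter (fun b => Squarefree b)).filter (fun b => b ∣ F v)).card ≤
      ∑ v ∈ ((lt K (i + 1)) ×ˢ (mon K i)),
      (((mon K l).filter (fun b => Squarefree b)).filter (fun b => b ∣ F v)).card :=
    Finset.sum_le_sum_of_subset (Finset.filter_subset _ _)
  refine h2.trans (le_of_eq ?_)
  simp only [Finset.card_filter]
  rw [Finset.sum_comm]
  apply Finset.sum_congr rfl
  intro b _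
  unfold A
  rw [Finset.card_filter]

theorem Ds'_le_T (hpar : S_par) (κ : ℕ) (hκ : Fintype.card K = 2 ^ κ) (i l : ℕ) :
    (Ds' K i l : ℝ) ≤ T' (K := K) i l (fun _ => 1) := by
  unfold Ds' T'
  have e : ∑ b ∈ (mon K l).filter (fun b => Squarefree b), (1 : ℝ) * (A' i b : ℝ) =
      ((∑ b ∈ (mon K l).filter (fun b => Squarefree b), A' i b : ℕ) : ℝ) := by
    push_cast
    apply Finset.sum_congr rfl
    intro b _
    rw [one_mul]
  rw [e]
  norm_cast
  have h1 : ∀ v ∈ ((mon K i) ×ˢ (lt K i)).filter (fun v => IsCoprime v.1 v.2),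
      ((mdiv (F v)).filter (fun d => d.natDegree = l)).card =
      (((mon K l).filter (fun b => Squarefree b)).filter (fun b => b ∣ F v)).card := by
    intro v hv
    rw [Finset.mem_filter, Finset.mem_product] at hv
    obtain ⟨⟨hv1, hv2⟩, hc⟩ := hv
    have hsq := ((hpar K κ hκ i v hc).2 hv1 hv2).1
    have h0 := (natDegree_F' hv1 hv2).1.ne_zero
    congr 1
    ext d
    rw [Finset.mem_filter, mem_mdiv h0, Finset.mem_filter, Finset.mem_filter, mem_mon]
    constructor
    · rintro ⟨⟨a, b⟩, c⟩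
      exact ⟨⟨⟨a, c⟩, hsq.squarefree_of_dvd b⟩, b⟩
    · rintro ⟨⟨⟨a, c⟩, _⟩, b⟩
      exact ⟨⟨a, b⟩, c⟩
  rw [Finset.sum_congr rfl h1]
  have h2 : ∑ v ∈ ((mon K i) ×ˢ (lt K i)).filter (fun v => IsCoprime v.1 v.2),
      (((mon K l).filter (fun b => Squarefree b)).filter (fun b => b ∣ F v)).card ≤
      ∑ v ∈ ((mon K i) ×ˢ (lt K i)),
      (((mon K l).filter (fun b => Squarefree b)).filter (fun b => b ∣ F v)).card :=
    Finset.sum_le_sum_of_subset (Finset.filter_subset _ _)
  refine h2.trans (le_of_eq ?_)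
  simp only [Finset.card_filter]
  rw [Finset.sum_comm]
  apply Finset.sum_congr rfl
  intro b _
  unfold A'
  rw [Finset.card_filter]

theorem Ds_flip (hpar : S_par) (hflip : S_flip) (κ : ℕ) (hκ : Fintype.card K = 2 ^ κ) (i l : ℕ)
    (hl : l ≤ 4 * i + 1) : Ds K i l = Ds K i (4 * i + 1 - l) := by
  unfold Ds
  apply Finset.sum_congr rfl
  intro v hv
  rw [Finset.mem_filter, Finset.mem_product] at hv
  obtain ⟨⟨hv1, hv2⟩, hc⟩ := hv
  have hsq := ((hpar K κ hκ i v hc).1 hv1 hv2).1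
  obtain ⟨hm, hd⟩ := natDegree_F hv1 hv2
  have h := hflip K (F v) hm hsq l (by rw [hd]; exact hl)
  rw [hd] at h
  exact h

theorem Ds'_flip (hpar : S_par) (hflip : S_flip) (κ : ℕ) (hκ : Fintype.card K = 2 ^ κ) (i l : ℕ)
    (hl : l ≤ 4 * i) : Ds' K i l = Ds' K i (4 * i - l) := by
  unfold Ds'
  apply Finset.sum_congr rfl
  intro v hv
  rw [Finset.mem_filter, Finset.mem_product] at hv
  obtain ⟨⟨hv1, hv2⟩, hc⟩ := hv
  have hsq := ((hpar K κ hκ i v hc).2 hv1 hv2).1
  obtain ⟨hm, hd⟩ := natDegree_F' hv1 hv2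
  have h := hflip K (F v) hm hsq l (by rw [hd]; exact hl)
  rw [hd] at h
  exact h

theorem Ds_zero (i l : ℕ) (hl : 4 * i + 1 < l) : Ds K i l = 0 := by
  unfold Ds
  apply Finset.sum_eq_zero
  intro v hv
  rw [Finset.mem_filter, Finset.mem_product] at hv
  obtain ⟨⟨hv1, hv2⟩, hc⟩ := hv
  obtain ⟨hm, hd⟩ := natDegree_F hv1 hv2
  rw [Finset.card_eq_zero, Finset.filter_eq_empty_iff]
  intro d hd'
  rw [mem_mdiv hm.ne_zero] at hd'
  have := natDegree_le_of_dvd hd'.2 hm.ne_zero
  omega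

theorem Ds'_zero (i l : ℕ) (hl : 4 * i < l) : Ds' K i l = 0 := by
  unfold Ds'
  apply Finset.sum_eq_zero
  intro v hv
  rw [Finset.mem_filter, Finset.mem_product] at hv
  obtain ⟨⟨hv1, hv2⟩, hc⟩ := hv
  obtain ⟨hm, hd⟩ := natDegree_F' hv1 hv2
  rw [Finset.card_eq_zero, Finset.filter_eq_empty_iff]
  intro d hd'
  rw [mem_mdiv hm.ne_zero] at hd'
  have := natDegree_le_of_dvd hd'.2 hm.ne_zero
  omega

theorem W_one_le (k : ℕ) : W (K := K) k (fun _ => 1) ≤ qr K ^ k := by
  unfold W qr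
  rw [Finset.sum_const, nsmul_eq_mul, mul_one]
  have h : ((mon K k).filter (fun b => Squarefree b)).card ≤ (mon K k).card :=
    Finset.card_filter_le _ _
  rw [card_mon] at h
  exact_mod_cast h

theorem T_nonneg (m k : ℕ) : 0 ≤ T (K := K) m k (fun _ => 1) := by
  unfold T
  apply Finset.sum_nonneg
  intro b _
  positivity

theorem T'_nonneg (m k : ℕ) : 0 ≤ T' (K := K) m k (fun _ => 1) := by
  unfold T'
  apply Finset.sum_nonneg
  intro b _
  positivity

/-- The geometric sum. -/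
theorem geo (q : ℝ) (μ : ℕ) : (q - 1) * ∑ i ∈ range μ, (q ^ (2 * i + 1) + q ^ (2 * i)) =
    q ^ (2 * μ) - 1 := by
  induction μ with
  | zero => simp
  | succ μ ih =>
    rw [Finset.sum_range_succ, mul_add, ih]
    ring

/-- The inductive bound. -/
def P (K : Type) [Field K] [Fintype K] (C : ℝ) (m : ℕ) : Prop :=
  ∀ k, T (K := K) m k (fun _ => 1) ≤ C * qr K ^ (2 * m + 1) ∧
    T' (K := K) m k (fun _ => 1) ≤ C * qr K ^ (2 * m)

theorem sum_le {C : ℝ} {m μ k : ℕ} (hμ : μ ≤ m) (hP : ∀ i < m, P K C i) :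
    (qr K - 1) * ∑ i ∈ range μ, (T (K := K) i k (fun _ => 1) + T' (K := K) i k (fun _ => 1)) ≤
      C * (qr K ^ (2 * μ) - 1) := by
  rw [← geo, ← mul_assoc, mul_comm C, mul_assoc]
  have hq := qr_two (K := K)
  apply mul_le_mul_of_nonneg_left _ (by linarith)
  rw [Finset.mul_sum]
  apply Finset.sum_le_sum
  intro i hi
  rw [Finset.mem_range] at hi
  have := hP i (by omega) k
  linarith [this.1, this.2]

theorem T_bound (hroot : S_root) (hrr : S_rr) (hex : S_ex) (hsc : S_sc) {C : ℝ} (hC : 0 ≤ C)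
    {m k : ℕ} (hP : ∀ i < m, P K C i) (hk : k ≤ 2 * m) :
    T (K := K) m k (fun _ => 1) ≤ (1 + C / qr K) * qr K ^ (2 * m + 1) := by
  have hq := qr_two (K := K)
  have hq0 : 0 < qr K := by linarith
  have hqk : 0 < qr K ^ k := by positivity
  rw [← mul_le_mul_iff_left₀ hqk]
  rcases Nat.lt_or_ge m k with h | h
  · obtain ⟨μ, rfl⟩ : ∃ μ, k = m + 1 + μ := ⟨k - m - 1, by omega⟩
    rw [T_rr hroot hrr hsc]
    have h1 := sum_le (K := K) (C := C) (m := m) (μ := μ) (k := m + 1 + μ) (by omega) hP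
    have h2 := W_one_le (K := K) (m + 1 + μ)
    have h3 := T'_nonneg (K := K) μ (m + 1 + μ)
    have h4 : qr K ^ (2 * μ) ≤ qr K ^ (m + μ) := pow_le_pow_right₀ (by linarith) (by omega)
    have h5 : C / qr K * qr K ^ (m + 1 + μ) = C * qr K ^ (m + μ) := by
      rw [show m + 1 + μ = (m + μ) + 1 by ring, pow_succ]
      field_simp
    have h6 : W (K := K) (m + 1 + μ) (fun _ => 1) + (qr K - 1) * ∑ i ∈ range μ,
        (T (K := K) i (m + 1 + μ) (fun _ => 1) + T' (K := K) i (m + 1 + μ) (fun _ => 1)) -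
        T' (K := K) μ (m + 1 + μ) (fun _ => 1) ≤
        qr K ^ (m + 1 + μ) + C / qr K * qr K ^ (m + 1 + μ) := by
      rw [h5]
      have h7 : C * qr K ^ (2 * μ) ≤ C * qr K ^ (m + μ) := mul_le_mul_of_nonneg_left h4 hC
      nlinarith [h1, h2, h3, h7]
    calc _ ≤ qr K ^ (2 * m + 1) * (qr K ^ (m + 1 + μ) + C / qr K * qr K ^ (m + 1 + μ)) :=
          mul_le_mul_of_nonneg_left h6 (by positivity)
      _ = _ := by ring
  · rw [T_ex hroot hex (by omega)]
    have h2 := W_one_le (K := K) k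
    have h3 : 0 ≤ C / qr K := by positivity
    have h4 : 0 < qr K ^ (2 * m + 1) := by positivity
    nlinarith [mul_nonneg h3 (mul_pos h4 hqk).le, mul_le_mul_of_nonneg_left h2 h4.le]

theorem T'_bound (hroot : S_root) (hrr : S_rr) (hex : S_ex) (hsc : S_sc) {C : ℝ} (hC : 0 ≤ C)
    {m k : ℕ} (hP : ∀ i < m, P K C i) (hk : k ≤ 2 * m) :
    T' (K := K) m k (fun _ => 1) ≤ (1 + C / qr K) * qr K ^ (2 * m) := by
  have hq := qr_two (K := K)
  have hq0 : 0 < qr K := by linarith
  have hqk : 0 < qr K ^ k := by positivity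
  rw [← mul_le_mul_iff_left₀ hqk]
  rcases Nat.lt_or_ge m k with h | h
  · obtain ⟨μ, rfl⟩ : ∃ μ, k = m + 1 + μ := ⟨k - m - 1, by omega⟩
    rw [T'_rr hroot hrr hsc]
    have h1 := sum_le (K := K) (C := C) (m := m) (μ := μ) (k := m + 1 + μ) (by omega) hP
    have h2 := W_one_le (K := K) (m + 1 + μ)
    have h3 := T_nonneg (K := K) μ (m + 1 + μ)
    have h3' := (hP μ (by omega) (m + 1 + μ)).2
    have h4 : qr K ^ (2 * μ + 1) ≤ qr K ^ (m + μ) := pow_le_pow_right₀ (by linarith) (by omega)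
    have h5 : C / qr K * qr K ^ (m + 1 + μ) = C * qr K ^ (m + μ) := by
      rw [show m + 1 + μ = (m + μ) + 1 by ring, pow_succ]
      field_simp
    have h6 : W (K := K) (m + 1 + μ) (fun _ => 1) + (qr K - 1) * ∑ i ∈ range μ,
        (T (K := K) i (m + 1 + μ) (fun _ => 1) + T' (K := K) i (m + 1 + μ) (fun _ => 1)) +
        (qr K - 1) * T' (K := K) μ (m + 1 + μ) (fun _ => 1) - T (K := K) μ (m + 1 + μ) (fun _ => 1) ≤
        qr K ^ (m + 1 + μ) + C / qr K * qr K ^ (m + 1 + μ) := by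
      rw [h5]
      have h7 : C * qr K ^ (2 * μ + 1) ≤ C * qr K ^ (m + μ) := mul_le_mul_of_nonneg_left h4 hC
      have h8 : (qr K - 1) * T' (K := K) μ (m + 1 + μ) (fun _ => 1) ≤
          (qr K - 1) * (C * qr K ^ (2 * μ)) := mul_le_mul_of_nonneg_left h3' (by linarith)
      have h9 : (qr K - 1) * (C * qr K ^ (2 * μ)) = C * qr K ^ (2 * μ + 1) - C * qr K ^ (2 * μ) := by
        ring
      nlinarith [h1, h2, h3, h7]
    calc _ ≤ qr K ^ (2 * m) * (qr K ^ (m + 1 + μ) + C / qr K * qr K ^ (m + 1 + μ)) :=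
          mul_le_mul_of_nonneg_left h6 (by positivity)
      _ = _ := by ring
  · rw [T'_ex hroot hex (by omega)]
    have h2 := W_one_le (K := K) k
    have h3 : 0 ≤ C / qr K := by positivity
    have h4 : 0 < qr K ^ (2 * m) := by positivity
    nlinarith [mul_nonneg h3 (mul_pos h4 hqk).le, mul_le_mul_of_nonneg_left h2 h4.le]

theorem Ds_bound (hroot : S_root) (hrr : S_rr) (hex : S_ex) (hsc : S_sc) (hpar : S_par)
    (hflip : S_flip) (κ : ℕ) (hκ : Fintype.card K = 2 ^ κ) {C : ℝ} (hC : 0 ≤ C)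
    {m : ℕ} (hP : ∀ i < m, P K C i) (l : ℕ) :
    (Ds K m l : ℝ) ≤ (1 + C / qr K) * qr K ^ (2 * m + 1) ∧
    (Ds' K m l : ℝ) ≤ (1 + C / qr K) * qr K ^ (2 * m) := by
  have hq := qr_two (K := K)
  have hq0 : 0 < qr K := by linarith
  constructor
  · rcases Nat.lt_or_ge (4 * m + 1) l with h | h
    · rw [Ds_zero m l h]
      push_cast
      positivity
    · rcases Nat.lt_or_ge (2 * m) l with h' | h'
      · rw [Ds_flip hpar hflip κ hκ m l h]
        exact (Ds_le_T hpar κ hκ m _).trans (T_bound hroot hrr hex hsc hC hP (by omega))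
      · exact (Ds_le_T hpar κ hκ m _).trans (T_bound hroot hrr hex hsc hC hP h')
  · rcases Nat.lt_or_ge (4 * m) l with h | h
    · rw [Ds'_zero m l h]
      push_cast
      positivity
    · rcases Nat.lt_or_ge (2 * m) l with h' | h'
      · rw [Ds'_flip hpar hflip κ hκ m l h]
        exact (Ds'_le_T hpar κ hκ m _).trans (T'_bound hroot hrr hex hsc hC hP (by omega))
      · exact (Ds'_le_T hpar κ hκ m _).trans (T'_bound hroot hrr hex hsc hC hP h')

theorem pc (hroot : S_root) (hrr : S_rr) (hex : S_ex) (hsc : S_sc) (hpar : S_par)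
    (hflip : S_flip) (hdc : S_dc) (κ : ℕ) (hκ : Fintype.card K = 2 ^ κ) (h8 : 8 ≤ qr K) (m : ℕ) :
    P K (8 / 5) m := by
  induction m using Nat.strong_induction_on with
  | _ m ih =>
    have hq0 : 0 < qr K := by linarith
    have key : ∀ i, (∀ i' < i, P K (8 / 5) i') → ∀ l,
        (Ds K i l : ℝ) ≤ (1 + (8 / 5) / qr K) * qr K ^ (2 * i + 1) ∧
        (Ds' K i l : ℝ) ≤ (1 + (8 / 5) / qr K) * qr K ^ (2 * i) := fun i h l =>
      Ds_bound hroot hrr hex hsc hpar hflip κ hκ (by norm_num) h l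
    have hb : (1 + (8 / 5) / qr K) * (qr K / (qr K - 1)) ^ 2 ≤ 8 / 5 := by
      rw [div_pow, ← mul_div_assoc, div_le_iff₀ (by nlinarith)]
      have e : (1 + 8 / 5 / qr K) * qr K ^ 2 = qr K ^ 2 + 8 / 5 * qr K := by
        field_simp
      rw [e]
      nlinarith
    intro k
    have hD : (0 : ℝ) ≤ 1 + (8 / 5) / qr K := by positivity
    obtain ⟨h1, h2⟩ := hdc K (1 + (8 / 5) / qr K) m k hD
    constructor
    · have h := h1 (fun i hi l => by
        have := (key i (fun i' hi' => ih i' (by omega)) l).1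
        unfold Ds qr at this
        exact this)
      have e : T (K := K) m k (fun _ => 1) =
          ((∑ b ∈ (mon K k).filter (fun b => Squarefree b), A m b : ℕ) : ℝ) := by
        unfold T
        push_cast
        apply Finset.sum_congr rfl
        intro b _
        rw [one_mul]
      rw [e]
      refine h.trans ?_
      exact mul_le_mul_of_nonneg_right hb (by positivity)
    · have h := h2 (fun i hi l => by
        have := (key i (fun i' hi' => ih i' (by omega)) l).2
        unfold Ds' qr at this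
        exact this)
      have e : T' (K := K) m k (fun _ => 1) =
          ((∑ b ∈ (mon K k).filter (fun b => Squarefree b), A' m b : ℕ) : ℝ) := by
        unfold T'
        push_cast
        apply Finset.sum_congr rfl
        intro b _
        rw [one_mul]
      rw [e]
      refine h.trans ?_
      exact mul_le_mul_of_nonneg_right hb (by positivity)

end pc

end Pool.Agent.H525.QF
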