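import Mathlib
import Pool.Agent.H985.Chow.StmSgn
import Pool.Agent.H525.QF.Base

/-!
# Project QF (helper525), further statements
-/

namespace Pool.Agent.H525.QF

open Polynomial
open Pool.Agent.H985.Chow (mob)
open scoped Classical

/-- **PAIRS**.  The pairs `(g, a)`, `g` monic of degree `j` and `a` a monic divisor of `g`, correspond
to the pairs `(a, c)` of monic polynomials with `deg a + deg c = j`. -/
def S_pairs : Prop :=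
  ∀ (K : Type) [Field K] [Fintype K] (j : ℕ) (φ : ℕ → ℝ),
    ∑ g ∈ mon K j, ∑ a ∈ mdiv g, φ a.natDegree =
      (Fintype.card K : ℝ) ^ j * ∑ α ∈ Finset.range (j + 1), φ α

/-- **NUM**.  A numerical inequality.  Proof: put `J = j + 1`, `m = n - J`.  With `c = 4 J - 1 - 2 α ≥ 1`,
`Σ_{k ≤ 2 m} (c + 2 (2 m - k)) q ^ k ≤ q ^ (2 m) (c * 8 / 7 + 16 / 49)` (as
`Σ_{i ≥ 0} q ^ (- i) ≤ 8 / 7` and `Σ_{i ≥ 0} 2 i q ^ (- i) ≤ 16 / 49` for `q ≥ 8`), and the inner sum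
over `Ico` is `(2 J - α - 1) ^ 2 q ^ (2 m + 1)`.  Summing over `α ≤ J`, the `j`-th term is at most
`(8 / 5) q ^ (2 n) q ^ (1 - J) W_J`, `W_J = (14 J ^ 3 - 3 J ^ 2 - 11 J + 6) / 6 +
((8 / 7) (J + 1) (3 J - 1) + (16 / 49) (J + 1)) / 4`, and `q ^ (1 - J) ≤ 8 ^ (1 - J)`;
`W_J = P(J) - P(J + 1) / 8` for an explicit cubic polynomial `P ≥ 0` with `P(1) < 6.01`, so the sum
over `J` telescopes.  The first sum is at most `2 q ^ (2 n - 1) * 72 / 49`.  In total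
`1.6 * (6.01 + 0.37) + 2 n (8 / 7) q ^ (- n) < 11` (treat the last sum crudely:
`Σ_{J ≤ n} 2 J q ^ J ≤ 2 n (8 / 7) q ^ n ≤ 0.29 q ^ (2 n)`).  Numerically the left side is at most
`10.19 q ^ (2 n)`. -/
def S_num : Prop :=
  ∀ (q : ℝ) (n : ℕ), 8 ≤ q → 1 ≤ n →
    (8 / 5) * ∑ k ∈ Finset.range (2 * n), (4 * (n : ℝ) - 1 - 2 * k) * 2 * q ^ k +
    ∑ j ∈ Finset.range n, q ^ (j + 1) * ∑ α ∈ Finset.range (j + 2), (8 / 5) *
      (∑ k ∈ Finset.range (2 * (n - 1 - j) + 1), (4 * (n : ℝ) - 1 - 2 * α - 2 * k) * 2 * q ^ k +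
       ∑ k ∈ Finset.Ico (2 * (n - 1 - j) + 2) (2 * n - α + 1),
         (4 * (n : ℝ) + 1 - 2 * α - 2 * k) * q ^ (2 * (n - 1 - j) + 1)) +
    ∑ j ∈ Finset.range n, 2 * ((j : ℝ) + 1) * q ^ (j + 1) ≤ 11 * q ^ (2 * n)

end Pool.Agent.H525.QF
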