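import Mathlib
import Pool.Agent.H525.QF.PC
import Pool.Agent.H525.QF.Stm2

/-!
# Project QF (helper525): the final estimate
-/

namespace Pool.Agent.H525.QF

open Polynomial Finset
open Pool.Agent.H985.Chow (mob)
open scoped Classical

section fin

variable {K : Type} [Field K] [Fintype K] [CharP K 2]

/-- The weights. -/
noncomputable def wt (g : K[X]) (b : K[X]) : ℝ := if IsCoprime b g then (mob b : ℝ) else 0

theorem mob_abs (f : K[X]) : |(mob f : ℝ)| ≤ 1 := by
  unfold mob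
  split_ifs with h
  · push_cast
    rw [abs_pow, abs_neg, abs_one, one_pow]
  · simp

theorem wt_abs (g b : K[X]) : |wt g b| ≤ 1 := by
  unfold wt
  split_ifs
  · exact mob_abs b
  · simp

theorem mob_not {f : K[X]} (h : ¬ Squarefree f) : mob f = 0 := by
  unfold mob
  rw [if_neg h]

theorem sum_wt (g : K[X]) (k : ℕ) (φ : K[X] → ℝ) :
    ∑ b ∈ (mon K k).filter (fun b => Squarefree b), wt g b * φ b =
      ∑ b ∈ (mon K k).filter (fun b => IsCoprime b g), (mob b : ℝ) * φ b := by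
  rw [Finset.sum_filter, Finset.sum_filter]
  apply Finset.sum_congr rfl
  intro b _
  unfold wt
  by_cases hs : Squarefree b
  · by_cases hc : IsCoprime b g
    · rw [if_pos hs, if_pos hc, if_pos hc]
    · rw [if_pos hs, if_neg hc, if_neg hc, zero_mul]
  · rw [if_neg hs, mob_not hs]
    simp

theorem T_wt (m k : ℕ) (g : K[X]) : T m k (wt g) =
    ((∑ b ∈ (mon K k).filter (fun b => IsCoprime b g), mob b * (A m b : ℤ) : ℤ) : ℝ) := by
  unfold T
  rw [sum_wt g k (fun b => (A m b : ℝ))]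
  push_cast
  rfl

theorem W_wt (k : ℕ) (g : K[X]) : W k (wt g) =
    ((∑ b ∈ (mon K k).filter (fun b => IsCoprime b g), mob b : ℤ) : ℝ) := by
  unfold W
  have h := sum_wt g k (fun _ => (1 : ℝ))
  simp only [mul_one] at h
  rw [h]
  push_cast
  rfl

theorem T_abs_le (m k : ℕ) (w : K[X] → ℝ) (hw : ∀ b, |w b| ≤ 1) :
    |T m k w| ≤ T (K := K) m k (fun _ => 1) := by
  unfold T
  refine (Finset.abs_sum_le_sum_abs _ _).trans (Finset.sum_le_sum ?_)
  intro b _
  rw [abs_mul, abs_of_nonneg (Nat.cast_nonneg (A m b) : (0 : ℝ) ≤ (A m b : ℝ))]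
  exact mul_le_mul_of_nonneg_right (hw b) (Nat.cast_nonneg _)

theorem T'_abs_le (m k : ℕ) (w : K[X] → ℝ) (hw : ∀ b, |w b| ≤ 1) :
    |T' m k w| ≤ T' (K := K) m k (fun _ => 1) := by
  unfold T'
  refine (Finset.abs_sum_le_sum_abs _ _).trans (Finset.sum_le_sum ?_)
  intro b _
  rw [abs_mul, abs_of_nonneg (Nat.cast_nonneg (A' m b) : (0 : ℝ) ≤ (A' m b : ℝ))]
  exact mul_le_mul_of_nonneg_right (hw b) (Nat.cast_nonneg _)

/-- The deviation from the main term. -/
theorem dev (hroot : S_root) (hrr : S_rr) (hex : S_ex) (hsc : S_sc)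
    (hP : ∀ m, P K (8 / 5) m) (w : K[X] → ℝ) (hw : ∀ b, |w b| ≤ 1) {m k : ℕ} (hk1 : 1 ≤ k)
    (hk : k ≤ 2 * m + 1) :
    |T m k w - qr K ^ (2 * m + 1 - k) * W k w| ≤ (8 / 5) * (2 * qr K ^ (k - 1)) := by
  have hq := qr_two (K := K)
  have hq0 : 0 < qr K := by linarith
  have hqk : 0 < qr K ^ k := by positivity
  have e : qr K ^ (2 * m + 1) = qr K ^ (2 * m + 1 - k) * qr K ^ k := by
    rw [← pow_add]
    congr 1
    omega
  rcases Nat.lt_or_ge (m + 1) k with h | h
  · obtain ⟨μ, rfl⟩ : ∃ μ, k = m + 1 + μ := ⟨k - m - 1, by omega⟩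
    have h1 := T_rr (K := K) hroot hrr hsc m μ w
    have h2 : |(qr K - 1) * ∑ i ∈ range μ, (T i (m + 1 + μ) w + T' i (m + 1 + μ) w) -
        T' μ (m + 1 + μ) w| ≤ (8 / 5) * (2 * qr K ^ (2 * μ)) := by
      have h3 : |(qr K - 1) * ∑ i ∈ range μ, (T i (m + 1 + μ) w + T' i (m + 1 + μ) w)| ≤
          (8 / 5) * (qr K ^ (2 * μ) - 1) := by
        rw [abs_mul, abs_of_nonneg (by linarith : (0 : ℝ) ≤ qr K - 1)]
        have h4 : |∑ i ∈ range μ, (T i (m + 1 + μ) w + T' i (m + 1 + μ) w)| ≤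
            ∑ i ∈ range μ, (T (K := K) i (m + 1 + μ) (fun _ => 1) +
              T' (K := K) i (m + 1 + μ) (fun _ => 1)) := by
          refine (Finset.abs_sum_le_sum_abs _ _).trans (Finset.sum_le_sum ?_)
          intro i _
          refine (abs_add_le _ _).trans ?_
          exact add_le_add (T_abs_le i _ w hw) (T'_abs_le i _ w hw)
        have h5 := sum_le (K := K) (C := 8 / 5) (m := μ) (μ := μ) (k := m + 1 + μ) le_rfl
          (fun i _ => hP i)
        exact (mul_le_mul_of_nonneg_left h4 (by linarith)).trans h5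
      have h6 : |T' μ (m + 1 + μ) w| ≤ (8 / 5) * qr K ^ (2 * μ) :=
        (T'_abs_le μ _ w hw).trans (hP μ (m + 1 + μ)).2
      refine (abs_sub _ _).trans ?_
      linarith
    rw [← mul_le_mul_iff_left₀ hqk]
    have h7 : |T m (m + 1 + μ) w - qr K ^ (2 * m + 1 - (m + 1 + μ)) * W (m + 1 + μ) w| *
        qr K ^ (m + 1 + μ) = qr K ^ (2 * m + 1) *
        |(qr K - 1) * ∑ i ∈ range μ, (T i (m + 1 + μ) w + T' i (m + 1 + μ) w) -
        T' μ (m + 1 + μ) w| := by
      have a1 : ∀ x : ℝ, |x| * qr K ^ (m + 1 + μ) = |x * qr K ^ (m + 1 + μ)| := by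
        intro x
        rw [abs_mul, abs_of_pos hqk]
      have a2 : ∀ x : ℝ, qr K ^ (2 * m + 1) * |x| = |qr K ^ (2 * m + 1) * x| := by
        intro x
        rw [abs_mul, abs_of_pos (by positivity : 0 < qr K ^ (2 * m + 1))]
      rw [a1, a2]
      congr 1
      rw [sub_mul, h1]
      rw [e]
      ring
    rw [h7]
    have h8 : (8 / 5 : ℝ) * (2 * qr K ^ (m + 1 + μ - 1)) * qr K ^ (m + 1 + μ) =
        qr K ^ (2 * m + 1) * ((8 / 5) * (2 * qr K ^ (2 * μ))) := by
      rw [show m + 1 + μ - 1 = m + μ by omega]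
      ring
    rw [h8]
    exact mul_le_mul_of_nonneg_left h2 (by positivity)
  · have h1 := T_ex (K := K) hroot hex h w
    have h2 : T m k w - qr K ^ (2 * m + 1 - k) * W k w = 0 := by
      apply mul_right_cancel₀ hqk.ne'
      rw [sub_mul, h1, zero_mul, e]
      ring
    rw [h2, abs_zero]
    positivity

theorem T_zero (hroot : S_root) (hex : S_ex) (w : K[X] → ℝ) (m : ℕ) :
    T m 0 w = qr K ^ (2 * m + 1) * W 0 w := by
  have h1 := T_ex (K := K) hroot hex (Nat.zero_le (m + 1)) w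
  rwa [pow_zero, mul_one] at h1

end fin

end Pool.Agent.H525.QF
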