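import Mathlib
import Pool.Agent.H525.QF.Fin

/-!
# Project QF (helper525): the terms of the decomposition
-/

namespace Pool.Agent.H525.QF

open Polynomial Finset
open Pool.Agent.H985.Chow (mob)
open scoped Classical

section fin

variable {K : Type} [Field K] [Fintype K] [CharP K 2]

/-- The weights `N - 2 k`. -/
def wn (n : ℕ) (k : ℕ) : ℤ := if 2 * k < 4 * n + 1 then (4 * n + 1 : ℤ) - 2 * k else 0

/-- The error term. -/
noncomputable def Rn (q : ℝ) (n j α : ℕ) : ℝ :=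
  (8 / 5) * (∑ k ∈ range (2 * (n - j) + 1), (4 * (n : ℝ) - 1 - 2 * α - 2 * k) * 2 * q ^ k +
    ∑ k ∈ Finset.Ico (2 * (n - j) + 2) (2 * n - α + 1),
      (4 * (n : ℝ) + 1 - 2 * α - 2 * k) * q ^ (2 * (n - j) + 1))

theorem Rn_nonneg {q : ℝ} (hq : 0 ≤ q) {n j α : ℕ} (hj : 1 ≤ j) (hjn : j ≤ n) (hα : α ≤ j) :
    0 ≤ Rn q n j α := by
  unfold Rn
  apply mul_nonneg (by norm_num)
  apply add_nonneg
  · apply Finset.sum_nonneg
    intro k hk
    rw [Finset.mem_range] at hk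
    have h1 : 2 * k ≤ 4 * (n - j) := by omega
    have h2 : (2 : ℝ) * k ≤ 4 * ((n : ℝ) - j) := by
      have : ((2 * k : ℕ) : ℝ) ≤ ((4 * (n - j) : ℕ) : ℝ) := by exact_mod_cast h1
      push_cast [Nat.cast_sub hjn] at this
      exact this
    have h3 : (α : ℝ) ≤ j := by exact_mod_cast hα
    have h4 : (1 : ℝ) ≤ j := by exact_mod_cast hj
    have h5 : 0 ≤ 4 * (n : ℝ) - 1 - 2 * α - 2 * k := by linarith
    positivity
  · apply Finset.sum_nonneg
    intro k hk
    rw [Finset.mem_Ico] at hk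
    have h1 : α + k ≤ 2 * n := by omega
    have h2 : (α : ℝ) + k ≤ 2 * n := by exact_mod_cast h1
    have h5 : 0 ≤ 4 * (n : ℝ) + 1 - 2 * α - 2 * k := by linarith
    positivity

/-- The truncated sum. -/
theorem sum_w {n α : ℕ} (hα : α ≤ 2 * n) (t : ℕ → ℝ) :
    ∑ k ∈ range (4 * n + 2), (wn n (α + k) : ℝ) * t k =
      ∑ k ∈ range (2 * n - α + 1), (4 * (n : ℝ) + 1 - 2 * α - 2 * k) * t k := by
  have hsub : range (2 * n - α + 1) ⊆ range (4 * n + 2) := by
    apply Finset.range_subset_range.2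
    omega
  rw [← Finset.sum_subset hsub]
  · apply Finset.sum_congr rfl
    intro k hk
    rw [Finset.mem_range] at hk
    unfold wn
    rw [if_pos (by omega)]
    push_cast
    ring
  · intro k _ hk
    rw [Finset.mem_range] at hk
    unfold wn
    rw [if_neg (by omega)]
    simp

theorem term_g (hroot : S_root) (hrr : S_rr) (hex : S_ex) (hsc : S_sc) (hdiv : S_div)
    (hhp : S_hp) (hP : ∀ m, P K (8 / 5) m) {n j : ℕ} (hj : 1 ≤ j) (hjn : j ≤ n) {g : K[X]}
    (hg : g ∈ mon K j) :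
    |(mob g : ℝ) * ∑ a ∈ mdiv g, (mob a : ℝ) * ∑ k ∈ range (4 * n + 2),
      (wn n (a.natDegree + k) : ℝ) * T (n - j) k (wt g)| ≤
      2 * (j : ℝ) + ∑ a ∈ mdiv g, Rn (qr K) n j a.natDegree := by
  have hq := qr_two (K := K)
  have hq0 : 0 < qr K := by linarith
  rw [mem_mon] at hg
  obtain ⟨hgm, hgd⟩ := hg
  have hdeg : ∀ a ∈ mdiv g, a.natDegree ≤ j := by
    intro a ha
    rw [mem_mdiv hgm.ne_zero] at ha
    rw [← hgd]
    exact natDegree_le_of_dvd ha.2 hgm.ne_zero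
  have hRn : 0 ≤ ∑ a ∈ mdiv g, Rn (qr K) n j a.natDegree :=
    Finset.sum_nonneg (fun a ha => Rn_nonneg hq0.le hj hjn (hdeg a ha))
  by_cases hs : Squarefree g
  swap
  · rw [mob_not hs]
    simp only [Int.cast_zero, zero_mul, abs_zero]
    positivity
  set m := n - j with hm
  set t : ℕ → ℝ := fun k => T m k (wt g) with ht
  set u : ℕ → ℝ := fun k => W k (wt g) with hu
  -- the main terms
  have hmain : ∀ a ∈ mdiv g, |∑ k ∈ range (4 * n + 2), (wn n (a.natDegree + k) : ℝ) * t k -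
      ∑ k ∈ range (2 * m + 2), (4 * (n : ℝ) + 1 - 2 * a.natDegree - 2 * k) *
        (qr K ^ (2 * m + 1 - k) * u k)| ≤ Rn (qr K) n j a.natDegree := by
    intro a ha
    have hα := hdeg a ha
    set α := a.natDegree with hα'
    rw [sum_w (by omega)]
    have hsplit : ∑ k ∈ range (2 * n - α + 1), (4 * (n : ℝ) + 1 - 2 * α - 2 * k) * t k =
        ∑ k ∈ range (2 * m + 2), (4 * (n : ℝ) + 1 - 2 * α - 2 * k) * t k +
        ∑ k ∈ Finset.Ico (2 * m + 2) (2 * n - α + 1), (4 * (n : ℝ) + 1 - 2 * α - 2 * k) * t k := by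
      rw [Finset.range_eq_Ico, Finset.range_eq_Ico]
      exact (Finset.sum_Ico_consecutive _ (by omega) (by omega)).symm
    rw [hsplit, add_sub_right_comm, ← Finset.sum_sub_distrib]
    refine (abs_add_le _ _).trans ?_
    unfold Rn
    rw [mul_add]
    apply add_le_add
    · rw [Finset.sum_range_succ']
      have h0 : (4 * (n : ℝ) + 1 - 2 * α - 2 * ((0 : ℕ) : ℝ)) * t 0 -
          (4 * (n : ℝ) + 1 - 2 * α - 2 * ((0 : ℕ) : ℝ)) * (qr K ^ (2 * m + 1 - 0) * u 0) = 0 := by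
        have := T_zero (K := K) hroot hex (wt g) m
        simp only [ht, hu]
        rw [this]
        simp
      rw [h0, add_zero, Finset.mul_sum]
      refine (Finset.abs_sum_le_sum_abs _ _).trans (Finset.sum_le_sum ?_)
      intro k hk
      rw [Finset.mem_range] at hk
      have h1 := dev hroot hrr hex hsc hP (wt g) (wt_abs g) (m := m) (k := k + 1) (by omega)
        (by omega)
      rw [Nat.add_sub_cancel] at h1
      have h2 : 2 * (k + 1) + 2 * α ≤ 4 * n := by omega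
      have h3 : (2 : ℝ) * ((k : ℝ) + 1) + 2 * α ≤ 4 * n := by exact_mod_cast h2
      have h4 : (0 : ℝ) ≤ 4 * (n : ℝ) - 1 - 2 * α - 2 * k := by linarith
      have h5 : (4 * (n : ℝ) + 1 - 2 * α - 2 * ((k + 1 : ℕ) : ℝ)) * t (k + 1) -
          (4 * (n : ℝ) + 1 - 2 * α - 2 * ((k + 1 : ℕ) : ℝ)) *
            (qr K ^ (2 * m + 1 - (k + 1)) * u (k + 1)) =
          (4 * (n : ℝ) - 1 - 2 * α - 2 * k) *
            (t (k + 1) - qr K ^ (2 * m + 1 - (k + 1)) * u (k + 1)) := by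
        push_cast
        ring
      rw [h5, abs_mul, abs_of_nonneg h4]
      calc _ ≤ (4 * (n : ℝ) - 1 - 2 * α - 2 * k) * ((8 / 5) * (2 * qr K ^ k)) :=
            mul_le_mul_of_nonneg_left h1 h4
        _ = _ := by ring
    · rw [Finset.mul_sum]
      refine (Finset.abs_sum_le_sum_abs _ _).trans (Finset.sum_le_sum ?_)
      intro k hk
      rw [Finset.mem_Ico] at hk
      have h1 : α + k ≤ 2 * n := by omega
      have h2 : (α : ℝ) + k ≤ 2 * n := by exact_mod_cast h1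
      have h4 : (0 : ℝ) ≤ 4 * (n : ℝ) + 1 - 2 * α - 2 * k := by linarith
      rw [abs_mul, abs_of_nonneg h4]
      have h5 : |t k| ≤ (8 / 5) * qr K ^ (2 * m + 1) :=
        (T_abs_le m k (wt g) (wt_abs g)).trans (hP m k).1
      calc _ ≤ (4 * (n : ℝ) + 1 - 2 * α - 2 * k) * ((8 / 5) * qr K ^ (2 * m + 1)) :=
            mul_le_mul_of_nonneg_left h5 h4
        _ = _ := by ring
  -- the sum of the main terms
  have hsum : |∑ a ∈ mdiv g, (mob a : ℝ) * ∑ k ∈ range (2 * m + 2),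
      (4 * (n : ℝ) + 1 - 2 * a.natDegree - 2 * k) * (qr K ^ (2 * m + 1 - k) * u k)| ≤ 2 * j := by
    obtain ⟨d1, d2⟩ := hdiv K g hgm hs
    have hg1 : g ≠ 1 := by
      rintro rfl
      rw [natDegree_one] at hgd
      omega
    rw [if_neg hg1] at d1
    have d1' : ∑ a ∈ mdiv g, (mob a : ℝ) = 0 := by exact_mod_cast d1
    set H : ℝ := ∑ k ∈ range (2 * m + 2), qr K ^ (2 * m + 1 - k) * u k with hH
    set H1 : ℝ := ∑ k ∈ range (2 * m + 2), (k : ℝ) * (qr K ^ (2 * m + 1 - k) * u k) with hH1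
    have e1 : ∀ a ∈ mdiv g, (mob a : ℝ) * ∑ k ∈ range (2 * m + 2),
        (4 * (n : ℝ) + 1 - 2 * a.natDegree - 2 * k) * (qr K ^ (2 * m + 1 - k) * u k) =
        (mob a : ℝ) * ((4 * (n : ℝ) + 1) * H - 2 * H1) -
          2 * H * ((mob a : ℝ) * a.natDegree) := by
      intro a _
      have : ∑ k ∈ range (2 * m + 2), (4 * (n : ℝ) + 1 - 2 * a.natDegree - 2 * k) *
          (qr K ^ (2 * m + 1 - k) * u k) =
          (4 * (n : ℝ) + 1 - 2 * a.natDegree) * H - 2 * H1 := by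
        rw [hH, hH1, Finset.mul_sum, Finset.mul_sum, ← Finset.sum_sub_distrib]
        apply Finset.sum_congr rfl
        intro k _
        ring
      rw [this]
      ring
    rw [Finset.sum_congr rfl e1, Finset.sum_sub_distrib, ← Finset.sum_mul, d1', zero_mul,
      zero_sub, abs_neg, ← Finset.mul_sum]
    by_cases hirr : Irreducible g
    · rw [if_pos hirr, hgd] at d2
      have d2' : ∑ a ∈ mdiv g, (mob a : ℝ) * (a.natDegree : ℝ) = -(j : ℝ) := by exact_mod_cast d2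
      rw [d2']
      have hHH : H = 0 ∨ H = 1 := by
        have h := hhp K g hgm hirr (2 * m + 1)
        have e2 : H = ((∑ k ∈ Finset.range (2 * m + 1 + 1), (Fintype.card K : ℤ) ^ (2 * m + 1 - k) *
            ∑ b ∈ (mon K k).filter (fun b => IsCoprime b g), mob b : ℤ) : ℝ) := by
          rw [hH, Int.cast_sum]
          apply Finset.sum_congr rfl
          intro k _
          simp only [hu]
          rw [W_wt, Int.cast_mul, Int.cast_pow]
          unfold qr
          norm_cast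
        rcases h with h | h
        · left
          rw [e2, h, Int.cast_zero]
        · right
          rw [e2, h, Int.cast_one]
      rcases hHH with h | h
      · rw [h]
        simp
      · rw [h]
        rw [mul_one, abs_mul, abs_neg, abs_of_nonneg (by norm_num : (0 : ℝ) ≤ 2),
          abs_of_nonneg (Nat.cast_nonneg j)]
    · rw [if_neg hirr] at d2
      have d2' : ∑ a ∈ mdiv g, (mob a : ℝ) * (a.natDegree : ℝ) = 0 := by exact_mod_cast d2
      rw [d2', mul_zero, abs_zero]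
      positivity
  rw [abs_mul]
  have hmg := mob_abs g
  have hdecomp : ∑ a ∈ mdiv g, (mob a : ℝ) * ∑ k ∈ range (4 * n + 2),
      (wn n (a.natDegree + k) : ℝ) * t k =
      ∑ a ∈ mdiv g, (mob a : ℝ) * ∑ k ∈ range (2 * m + 2),
        (4 * (n : ℝ) + 1 - 2 * a.natDegree - 2 * k) * (qr K ^ (2 * m + 1 - k) * u k) +
      ∑ a ∈ mdiv g, (mob a : ℝ) * (∑ k ∈ range (4 * n + 2), (wn n (a.natDegree + k) : ℝ) * t k -
        ∑ k ∈ range (2 * m + 2), (4 * (n : ℝ) + 1 - 2 * a.natDegree - 2 * k) *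
        (qr K ^ (2 * m + 1 - k) * u k)) := by
    rw [← Finset.sum_add_distrib]
    apply Finset.sum_congr rfl
    intro a _
    ring
  have hfin : |∑ a ∈ mdiv g, (mob a : ℝ) * ∑ k ∈ range (4 * n + 2),
      (wn n (a.natDegree + k) : ℝ) * t k| ≤
      2 * (j : ℝ) + ∑ a ∈ mdiv g, Rn (qr K) n j a.natDegree := by
    rw [hdecomp]
    refine (abs_add_le _ _).trans (add_le_add hsum ?_)
    refine (Finset.abs_sum_le_sum_abs _ _).trans (Finset.sum_le_sum ?_)
    intro a ha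
    rw [abs_mul]
    calc _ ≤ 1 * Rn (qr K) n j a.natDegree :=
          mul_le_mul (mob_abs a) (hmain a ha) (abs_nonneg _) zero_le_one
      _ = _ := one_mul _
  calc _ ≤ 1 * (2 * (j : ℝ) + ∑ a ∈ mdiv g, Rn (qr K) n j a.natDegree) :=
        mul_le_mul hmg hfin (abs_nonneg _) zero_le_one
    _ = _ := one_mul _

theorem term_one (hroot : S_root) (hrr : S_rr) (hex : S_ex) (hsc : S_sc) (hms : S_ms)
    (hP : ∀ m, P K (8 / 5) m) {n : ℕ} (hn : 1 ≤ n) :
    |∑ k ∈ range (4 * n + 2), (wn n (0 + k) : ℝ) * T n k (wt (1 : K[X])) -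
      2 * qr K ^ (2 * n + 1)| ≤
      (8 / 5) * ∑ k ∈ range (2 * n), (4 * (n : ℝ) - 1 - 2 * k) * 2 * qr K ^ k := by
  have hq := qr_two (K := K)
  have hq0 : 0 < qr K := by linarith
  rw [sum_w (by omega)]
  rw [show 2 * n - 0 + 1 = 2 * n + 1 by omega]
  have hW : ∀ k, W k (wt (1 : K[X])) = if k = 0 then 1 else if k = 1 then -qr K else 0 := by
    intro k
    rw [W_wt]
    have e : (mon K k).filter (fun b => IsCoprime b (1 : K[X])) = mon K k := by
      apply Finset.filter_true_of_mem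
      intro b _
      exact isCoprime_one_right
    rw [e, hms K k]
    split_ifs
    · simp
    · unfold qr
      simp
    · simp
  have hmain : 2 * qr K ^ (2 * n + 1) = ∑ k ∈ range (2 * n + 1),
      (4 * (n : ℝ) + 1 - 2 * ((0 : ℕ) : ℝ) - 2 * k) *
        (qr K ^ (2 * n + 1 - k) * W k (wt (1 : K[X]))) := by
    obtain ⟨n', rfl⟩ : ∃ n', n = n' + 1 := ⟨n - 1, by omega⟩
    rw [show 2 * (n' + 1) + 1 = (2 * n' + 1) + 1 + 1 by ring, Finset.sum_range_succ',
      Finset.sum_range_succ']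
    have h0 : ∑ k ∈ range (2 * n' + 1), (4 * ((n' + 1 : ℕ) : ℝ) + 1 - 2 * ((0 : ℕ) : ℝ) -
        2 * ((k + 1 + 1 : ℕ) : ℝ)) * (qr K ^ (2 * n' + 1 + 1 + 1 - (k + 1 + 1)) *
          W (k + 1 + 1) (wt (1 : K[X]))) = 0 := by
      apply Finset.sum_eq_zero
      intro k _
      rw [hW, if_neg (by omega), if_neg (by omega)]
      ring
    rw [h0, hW, hW, if_neg (by omega), if_pos rfl, if_pos rfl]
    rw [show 2 * n' + 1 + 1 + 1 - (0 + 1) = 2 * n' + 2 by omega,
      show 2 * n' + 1 + 1 + 1 - 0 = 2 * n' + 3 by omega]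
    push_cast
    ring
  rw [hmain, ← Finset.sum_sub_distrib, Finset.sum_range_succ']
  have h0 : (4 * (n : ℝ) + 1 - 2 * ((0 : ℕ) : ℝ) - 2 * ((0 : ℕ) : ℝ)) * T n 0 (wt (1 : K[X])) -
      (4 * (n : ℝ) + 1 - 2 * ((0 : ℕ) : ℝ) - 2 * ((0 : ℕ) : ℝ)) *
        (qr K ^ (2 * n + 1 - 0) * W 0 (wt (1 : K[X]))) = 0 := by
    rw [T_zero (K := K) hroot hex (wt 1) n]
    simp
  rw [h0, add_zero, Finset.mul_sum]
  refine (Finset.abs_sum_le_sum_abs _ _).trans (Finset.sum_le_sum ?_)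
  intro k hk
  rw [Finset.mem_range] at hk
  have h1 := dev hroot hrr hex hsc hP (wt (1 : K[X])) (wt_abs 1) (m := n) (k := k + 1) (by omega)
    (by omega)
  rw [Nat.add_sub_cancel] at h1
  have h2 : 2 * (k + 1) ≤ 4 * n := by omega
  have h3 : (2 : ℝ) * ((k : ℝ) + 1) ≤ 4 * n := by exact_mod_cast h2
  have h4 : (0 : ℝ) ≤ 4 * (n : ℝ) - 1 - 2 * k := by linarith
  have h5 : (4 * (n : ℝ) + 1 - 2 * ((0 : ℕ) : ℝ) - 2 * ((k + 1 : ℕ) : ℝ)) *
      T n (k + 1) (wt (1 : K[X])) - (4 * (n : ℝ) + 1 - 2 * ((0 : ℕ) : ℝ) - 2 * ((k + 1 : ℕ) : ℝ)) *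
        (qr K ^ (2 * n + 1 - (k + 1)) * W (k + 1) (wt (1 : K[X]))) =
      (4 * (n : ℝ) - 1 - 2 * k) * (T n (k + 1) (wt (1 : K[X])) -
        qr K ^ (2 * n + 1 - (k + 1)) * W (k + 1) (wt (1 : K[X]))) := by
    push_cast
    ring
  rw [h5, abs_mul, abs_of_nonneg h4]
  calc _ ≤ (4 * (n : ℝ) - 1 - 2 * k) * ((8 / 5) * (2 * qr K ^ k)) :=
        mul_le_mul_of_nonneg_left h1 h4
    _ = _ := by ring

end fin

end Pool.Agent.H525.QF
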