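import Mathlib
import Pool.Agent.H525.QF.Fin2
import Pool.Agent.H985.Chow.Sgn

/-!
# Project QF (helper525): primes of the form `x ^ 4 + t y ^ 4`
-/

namespace Pool.Agent.H525.QF

open Polynomial Finset
open Pool.Agent.H985.Chow (mob)
open scoped Classical

section fin

variable {K : Type} [Field K] [Fintype K] [CharP K 2]

/-- The number of the prime values. -/
noncomputable def pr (K : Type) [Field K] [Fintype K] (n : ℕ) : ℕ :=
  (((lt K (n + 1)) ×ˢ (mon K n)).filter (fun v => Irreducible (F v))).card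

theorem coprime_of_irreducible {v : K[X] × K[X]} (h : Irreducible (F v)) :
    IsCoprime v.1 v.2 := by
  rw [← EuclideanDomain.gcd_isUnit_iff]
  by_contra hu
  set g := EuclideanDomain.gcd v.1 v.2 with hg
  have h1 : g ∣ v.1 := EuclideanDomain.gcd_dvd_left _ _
  have h2 : g ∣ v.2 := EuclideanDomain.gcd_dvd_right _ _
  have h3 : g ^ 4 ∣ F v := by
    unfold F
    exact dvd_add (pow_dvd_pow_of_dvd h1 4) ((pow_dvd_pow_of_dvd h2 4).mul_left _)
  obtain ⟨c, hc⟩ := h3
  have h4 : F v = g * (g ^ 3 * c) := by rw [hc]; ring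
  rcases h.isUnit_or_isUnit h4 with h5 | h5
  · exact hu h5
  · exact hu (isUnit_of_mul_isUnit_left (isUnit_of_mul_isUnit_left (by
      have : g ^ 3 * c = g * (g ^ 2 * c) := by ring
      rw [this] at h5
      have h6 : g * (g ^ 2 * c) = (g * g ^ 2) * c := by ring
      rw [h6] at h5
      exact h5)))

/-- The sum over the coprime pairs. -/
theorem main_sum (hpar : S_par) (hlam : S_lam) (κ : ℕ) (hκ : Fintype.card K = 2 ^ κ) (n : ℕ)
    (he : Even (κ * n)) :
    ∑ v ∈ ((lt K (n + 1)) ×ˢ (mon K n)).filter (fun v => IsCoprime v.1 v.2),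
      ∑ d ∈ mdiv (F v), mob d * wn n d.natDegree = (4 * n + 1 : ℤ) * pr K n := by
  have h1 : ∀ v ∈ ((lt K (n + 1)) ×ˢ (mon K n)).filter (fun v => IsCoprime v.1 v.2),
      ∑ d ∈ mdiv (F v), mob d * wn n d.natDegree =
        if Irreducible (F v) then (4 * n + 1 : ℤ) else 0 := by
    intro v hv
    rw [Finset.mem_filter, Finset.mem_product] at hv
    obtain ⟨⟨hv1, hv2⟩, hc⟩ := hv
    obtain ⟨hsq, hmob⟩ := (hpar K κ hκ n v hc).1 hv1 hv2
    rw [he.neg_one_pow] at hmob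
    obtain ⟨hm, hd⟩ := natDegree_F hv1 hv2
    have h := hlam K (F v) (4 * n + 1) hm hsq hd hmob
    rw [Finset.sum_filter] at h
    have e : ∑ d ∈ mdiv (F v), mob d * wn n d.natDegree =
        ∑ a ∈ mdiv (F v), if 2 * a.natDegree < 4 * n + 1 then
          mob a * (((4 * n + 1 : ℕ) : ℤ) - 2 * a.natDegree) else 0 := by
      apply Finset.sum_congr rfl
      intro d _
      unfold wn
      split_ifs
      · push_cast
        ring
      · ring
    rw [e, h]
    push_cast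
    rfl
  rw [Finset.sum_congr rfl h1, ← Finset.sum_filter, Finset.sum_const, nsmul_eq_mul, mul_comm]
  congr 2
  unfold pr
  congr 1
  ext v
  rw [Finset.mem_filter, Finset.mem_filter, Finset.mem_filter]
  constructor
  · rintro ⟨⟨a, _⟩, c⟩
    exact ⟨a, c⟩
  · rintro ⟨a, c⟩
    exact ⟨⟨a, coprime_of_irreducible c⟩, c⟩

theorem mdiv_one : mdiv (1 : K[X]) = {1} := by
  ext a
  rw [mem_mdiv one_ne_zero, Finset.mem_singleton]
  constructor
  · rintro ⟨h1, h2⟩
    exact h1.eq_one_of_isUnit (isUnit_of_dvd_one h2)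
  · rintro rfl
    exact ⟨monic_one, dvd_rfl⟩

theorem mon_zero : mon K 0 = {1} := by
  ext a
  rw [mem_mon, Finset.mem_singleton]
  constructor
  · rintro ⟨h1, h2⟩
    exact eq_one_of_monic_natDegree_zero h1 h2
  · rintro rfl
    exact ⟨monic_one, natDegree_one⟩

theorem main (hroot : S_root) (hrr : S_rr) (hex : S_ex) (hsc : S_sc) (hdiv : S_div)
    (hhp : S_hp) (hms : S_ms) (hpar : S_par) (hflip : S_flip) (hdc : S_dc) (hlam : S_lam)
    (hdec : S_dec) (hpairs : S_pairs) (hnum : S_num) (κ : ℕ) (hκ : Fintype.card K = 2 ^ κ)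
    (h3 : 3 ≤ κ) (n : ℕ) (hn : 1 ≤ n) (he : Even (κ * n)) :
    |(4 * (n : ℝ) + 1) * pr K n - 2 * qr K ^ (2 * n + 1)| ≤ 11 * qr K ^ (2 * n) := by
  have h8 : 8 ≤ qr K := by
    unfold qr
    rw [hκ]
    have : 2 ^ 3 ≤ 2 ^ κ := Nat.pow_le_pow_right (by norm_num) h3
    exact_mod_cast (by norm_num at this; exact this : 8 ≤ 2 ^ κ)
  have hP : ∀ m, P K (8 / 5) m := pc hroot hrr hex hsc hpar hflip hdc κ hκ h8
  have hs := main_sum (K := K) hpar hlam κ hκ n he
  rw [hdec K n (wn n), Finset.sum_range_succ'] at hs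
  have hz : ((4 * (n : ℝ) + 1) * pr K n) =
      ((∑ j ∈ range n, ∑ g ∈ mon K (j + 1), mob g * ∑ a ∈ mdiv g, mob a *
      ∑ k ∈ Finset.range (4 * n + 2), wn n (a.natDegree + k) *
        ∑ b ∈ (mon K k).filter (fun b => IsCoprime b g), mob b * (A (n - (j + 1)) b : ℤ) : ℤ) : ℝ) +
      ((∑ g ∈ mon K 0, mob g * ∑ a ∈ mdiv g, mob a *
      ∑ k ∈ Finset.range (4 * n + 2), wn n (a.natDegree + k) *
        ∑ b ∈ (mon K k).filter (fun b => IsCoprime b g), mob b * (A (n - 0) b : ℤ) : ℤ) : ℝ) := by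
    rw [← Int.cast_add, hs]
    push_cast
    ring
  have hz0 : ((∑ g ∈ mon K 0, mob g * ∑ a ∈ mdiv g, mob a *
      ∑ k ∈ Finset.range (4 * n + 2), wn n (a.natDegree + k) *
        ∑ b ∈ (mon K k).filter (fun b => IsCoprime b g), mob b * (A (n - 0) b : ℤ) : ℤ) : ℝ) =
      ∑ k ∈ range (4 * n + 2), (wn n (0 + k) : ℝ) * T n k (wt (1 : K[X])) := by
    rw [mon_zero, Finset.sum_singleton, mdiv_one, Finset.sum_singleton,
      Pool.Agent.H985.Chow.mob_one, one_mul, one_mul, natDegree_one, Int.cast_sum]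
    apply Finset.sum_congr rfl
    intro k _
    rw [T_wt, Int.cast_mul, Nat.sub_zero]
  have hzg : ∀ j ∈ range n, ∀ g ∈ mon K (j + 1),
      ((mob g * ∑ a ∈ mdiv g, mob a *
      ∑ k ∈ Finset.range (4 * n + 2), wn n (a.natDegree + k) *
        ∑ b ∈ (mon K k).filter (fun b => IsCoprime b g), mob b * (A (n - (j + 1)) b : ℤ) : ℤ) : ℝ) =
      (mob g : ℝ) * ∑ a ∈ mdiv g, (mob a : ℝ) * ∑ k ∈ range (4 * n + 2),
      (wn n (a.natDegree + k) : ℝ) * T (n - (j + 1)) k (wt g) := by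
    intro j _ g _
    rw [Int.cast_mul, Int.cast_sum]
    congr 1
    apply Finset.sum_congr rfl
    intro a _
    rw [Int.cast_mul, Int.cast_sum]
    congr 1
    apply Finset.sum_congr rfl
    intro k _
    rw [T_wt, Int.cast_mul]
  rw [hz, hz0, Int.cast_sum]
  have hone := term_one (K := K) hroot hrr hex hsc hms hP hn
  have hrest : |∑ j ∈ range n, ((∑ g ∈ mon K (j + 1), mob g * ∑ a ∈ mdiv g, mob a *
      ∑ k ∈ Finset.range (4 * n + 2), wn n (a.natDegree + k) *
        ∑ b ∈ (mon K k).filter (fun b => IsCoprime b g), mob b * (A (n - (j + 1)) b : ℤ) : ℤ) : ℝ)| ≤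
      ∑ j ∈ range n, qr K ^ (j + 1) * ∑ α ∈ Finset.range (j + 2), Rn (qr K) n (j + 1) α +
      ∑ j ∈ range n, 2 * ((j : ℝ) + 1) * qr K ^ (j + 1) := by
    rw [← Finset.sum_add_distrib]
    refine (Finset.abs_sum_le_sum_abs _ _).trans (Finset.sum_le_sum ?_)
    intro j hj
    rw [Int.cast_sum, Finset.sum_congr rfl (hzg j hj)]
    rw [Finset.mem_range] at hj
    refine (Finset.abs_sum_le_sum_abs _ _).trans ?_
    have h1 : ∑ g ∈ mon K (j + 1), |(mob g : ℝ) * ∑ a ∈ mdiv g, (mob a : ℝ) *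
        ∑ k ∈ range (4 * n + 2), (wn n (a.natDegree + k) : ℝ) * T (n - (j + 1)) k (wt g)| ≤
        ∑ g ∈ mon K (j + 1), (2 * ((j + 1 : ℕ) : ℝ) +
          ∑ a ∈ mdiv g, Rn (qr K) n (j + 1) a.natDegree) := by
      apply Finset.sum_le_sum
      intro g hg
      exact term_g hroot hrr hex hsc hdiv hhp hP (by omega) (by omega) hg
    refine h1.trans (le_of_eq ?_)
    rw [Finset.sum_add_distrib, hpairs K (j + 1) (fun α => Rn (qr K) n (j + 1) α),
      Finset.sum_const, nsmul_eq_mul, card_mon]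
    unfold qr
    push_cast
    ring
  have hnum' := hnum (qr K) n h8 hn
  have hR : ∑ j ∈ range n, qr K ^ (j + 1) * ∑ α ∈ Finset.range (j + 2), Rn (qr K) n (j + 1) α =
      ∑ j ∈ Finset.range n, qr K ^ (j + 1) * ∑ α ∈ Finset.range (j + 2), (8 / 5) *
      (∑ k ∈ Finset.range (2 * (n - 1 - j) + 1), (4 * (n : ℝ) - 1 - 2 * α - 2 * k) * 2 * qr K ^ k +
       ∑ k ∈ Finset.Ico (2 * (n - 1 - j) + 2) (2 * n - α + 1),
         (4 * (n : ℝ) + 1 - 2 * α - 2 * k) * qr K ^ (2 * (n - 1 - j) + 1)) := by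
    apply Finset.sum_congr rfl
    intro j _
    congr 1
    apply Finset.sum_congr rfl
    intro α _
    unfold Rn
    rw [show n - (j + 1) = n - 1 - j by omega]
  rw [hR] at hrest
  rw [abs_le] at *
  constructor <;> linarith [hone.1, hone.2, hrest.1, hrest.2]

end fin

end Pool.Agent.H525.QF
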